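import Pool.Agent.Work.MP_71c2fc_gt.Slice.FreeHom

set_option autoImplicit false

open Set Filter Topology
open scoped unitInterval

namespace Pool.Agent.Work.MP_71c2fc_gt

section

variable {T : Type*} [TopologicalSpace T]

/-- The infinite telescope of homotopies. -/
noncomputable def teleMap {g : ℕ → C(I, T)} (F : ∀ m, ContinuousMap.Homotopy (g m) (g (m + 1))) :
    ℝ × I → T := fun z => F ⌊z.1⌋₊ (projIcc 0 1 zero_le_one (z.1 - ⌊z.1⌋₊), z.2)

theorem teleMap_eq {g : ℕ → C(I, T)} (F : ∀ m, ContinuousMap.Homotopy (g m) (g (m + 1)))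
    {m : ℕ} {z : ℝ × I} (h0 : m = 0 ∨ (m : ℝ) ≤ z.1) (h1 : z.1 ≤ m + 1) :
    teleMap F z = F m (projIcc 0 1 zero_le_one (z.1 - m), z.2) := by
  rcases eq_or_lt_of_le h1 with h | h
  · have h2 : ⌊z.1⌋₊ = m + 1 := by
      rw [h]
      have : ((m : ℝ) + 1) = ((m + 1 : ℕ) : ℝ) := by push_cast; rfl
      rw [this, Nat.floor_natCast]
    unfold teleMap
    rw [h2, h]
    have e1 : ((m : ℝ) + 1 - ((m + 1 : ℕ) : ℝ)) = 0 := by push_cast; ring
    have e2 : ((m : ℝ) + 1 - (m : ℝ)) = 1 := by ring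
    rw [e1, e2, projIcc_left, projIcc_right]
    exact ((F (m + 1)).apply_zero z.2).trans ((F m).apply_one z.2).symm
  · have h2 : ⌊z.1⌋₊ = m := by
      rcases h0 with h0 | h0
      · subst h0
        rw [Nat.floor_eq_zero]
        simpa using h
      · have hz : 0 ≤ z.1 := (Nat.cast_nonneg m).trans h0
        rw [Nat.floor_eq_iff hz]
        exact ⟨h0, h⟩
    unfold teleMap
    rw [h2]

theorem continuous_teleMap {g : ℕ → C(I, T)}
    (F : ∀ m, ContinuousMap.Homotopy (g m) (g (m + 1))) : Continuous (teleMap F) := by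
  let A : ℕ → Set (ℝ × I) := fun m => {z | (m = 0 ∨ (m : ℝ) ≤ z.1) ∧ z.1 ≤ m + 1}
  have hcl : ∀ m, IsClosed (A m) := by
    intro m
    have h1 : IsClosed {z : ℝ × I | m = 0 ∨ (m : ℝ) ≤ z.1} := by
      by_cases hm : m = 0
      · have : {z : ℝ × I | m = 0 ∨ (m : ℝ) ≤ z.1} = univ :=
          eq_univ_of_forall fun _ => Or.inl hm
        rw [this]
        exact isClosed_univ
      · have : {z : ℝ × I | m = 0 ∨ (m : ℝ) ≤ z.1} = {z : ℝ × I | (m : ℝ) ≤ z.1} := by
          ext z
          simp [hm]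
        rw [this]
        exact isClosed_le continuous_const continuous_fst
    exact h1.inter (isClosed_le continuous_fst continuous_const)
  have hcov : ⋃ m, A m = univ := by
    apply eq_univ_of_forall
    intro z
    refine mem_iUnion.2 ⟨⌊z.1⌋₊, ?_, (Nat.lt_floor_add_one z.1).le⟩
    by_cases hm : ⌊z.1⌋₊ = 0
    · exact Or.inl hm
    · right
      apply Nat.floor_le
      by_contra hneg
      push Not at hneg
      exact hm (Nat.floor_of_nonpos hneg.le)
  have hlf : LocallyFinite A := by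
    intro z
    refine ⟨{w | w.1 < z.1 + 1}, (isOpen_lt continuous_fst continuous_const).mem_nhds
      (by show z.1 < z.1 + 1; linarith), ?_⟩
    apply (Set.finite_le_nat ⌈|z.1| + 1⌉₊).subset
    rintro m ⟨w, ⟨hw1, _⟩, hw2⟩
    have hw2' : w.1 < z.1 + 1 := hw2
    rcases hw1 with h | h
    · subst h
      exact Nat.zero_le _
    · have h3 : (m : ℝ) ≤ |z.1| + 1 := by
        have := le_abs_self z.1
        linarith
      exact_mod_cast h3.trans (Nat.le_ceil _)
  refine hlf.continuous hcov hcl fun m => ?_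
  have h1 : Continuous fun z : ℝ × I => F m (projIcc 0 1 zero_le_one (z.1 - m), z.2) :=
    (F m).continuous.comp ((continuous_projIcc.comp (by fun_prop)).prodMk continuous_snd)
  exact h1.continuousOn.congr fun z hz => teleMap_eq F hz.1 hz.2

theorem teleMap_ends {g : ℕ → C(I, T)} (F : ∀ m, ContinuousMap.Homotopy (g m) (g (m + 1)))
    (hF : ∀ m τ, F m (τ, 0) = F m (τ, 1)) (r : ℝ) : teleMap F (r, 0) = teleMap F (r, 1) :=
  hF _ _

/-- An infinite chain of free homotopies which shrinks to a point is a free homotopy to the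
constant loop. -/
theorem FreeHom.of_chain {g : ℕ → C(I, T)} (F : ∀ m, ContinuousMap.Homotopy (g m) (g (m + 1)))
    (hF : ∀ m τ, F m (τ, 0) = F m (τ, 1)) (q : T)
    (hq : ∀ U ∈ 𝓝 q, ∃ M : ℕ, ∀ m, M ≤ m → ∀ z, F m z ∈ U) :
    FreeHom (g 0) (ContinuousMap.const I q) := by
  classical
  let G : I × I → T := fun z => if z.1 = 1 then q else teleMap F ((z.1 : ℝ) / (1 - z.1), z.2)
  have hne : ∀ τ : I, τ ≠ 1 → 0 < 1 - (τ : ℝ) := by
    intro τ hτ
    have h1 : (τ : ℝ) ≠ 1 := fun h => hτ (Subtype.ext h)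
    have h2 : (τ : ℝ) < 1 := lt_of_le_of_ne τ.2.2 h1
    linarith
  have hG : Continuous G := by
    rw [continuous_iff_continuousAt]
    rintro ⟨τ, s⟩
    by_cases hτ : τ = 1
    · subst hτ
      have hG1 : G (1, s) = q := if_pos rfl
      unfold ContinuousAt
      rw [hG1]
      intro U hU
      obtain ⟨M, hM⟩ := hq U hU
      have hO : IsOpen {z : I × I | (M : ℝ) * (1 - (z.1 : ℝ)) < z.1} :=
        isOpen_lt (by fun_prop) (by fun_prop)
      have hmem : ((1 : I), s) ∈ {z : I × I | (M : ℝ) * (1 - (z.1 : ℝ)) < z.1} := by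
        show (M : ℝ) * (1 - ((1 : I) : ℝ)) < ((1 : I) : ℝ)
        norm_num
      rw [mem_map]
      apply mem_of_superset (hO.mem_nhds hmem)
      rintro ⟨τ', s'⟩ hz
      have hz' : (M : ℝ) * (1 - (τ' : ℝ)) < τ' := hz
      show G (τ', s') ∈ U
      by_cases hτ' : τ' = 1
      · have : G (τ', s') = q := if_pos hτ'
        rw [this]
        exact mem_of_mem_nhds hU
      · have : G (τ', s') = teleMap F ((τ' : ℝ) / (1 - τ'), s') := if_neg hτ'
        rw [this]
        apply hM
        apply Nat.le_floor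
        show (M : ℝ) ≤ (τ' : ℝ) / (1 - τ')
        rw [le_div_iff₀ (hne τ' hτ')]
        exact hz'.le
    · have hO : IsOpen {z : I × I | z.1 ≠ 1} :=
        isOpen_ne_fun continuous_fst continuous_const
      have h1 : G =ᶠ[𝓝 (τ, s)] fun z => teleMap F ((z.1 : ℝ) / (1 - z.1), z.2) := by
        filter_upwards [hO.mem_nhds (show (τ, s) ∈ {z : I × I | z.1 ≠ 1} from hτ)] with z hz
        exact if_neg hz
      refine ContinuousAt.congr ?_ h1.symm
      have h2 : ContinuousAt (fun z : I × I => (((z.1 : ℝ) / (1 - z.1), z.2) : ℝ × I)) (τ, s) := by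
        apply ContinuousAt.prodMk
        · apply ContinuousAt.div
          · fun_prop
          · fun_prop
          · exact (hne τ hτ).ne'
        · fun_prop
      exact (continuous_teleMap F).continuousAt.comp h2
  refine ⟨⟨⟨G, hG⟩, ?_, ?_⟩, ?_⟩
  · intro s
    show G (0, s) = g 0 s
    have h1 : G (0, s) = teleMap F (((0 : I) : ℝ) / (1 - ((0 : I) : ℝ)), s) :=
      if_neg (by simp)
    rw [h1]
    have h2 : ((0 : I) : ℝ) / (1 - ((0 : I) : ℝ)) = 0 := by simp
    rw [h2, teleMap_eq F (m := 0) (z := (0, s)) (Or.inl rfl) (by simp)]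
    have h3 : (0 : ℝ) - ((0 : ℕ) : ℝ) = 0 := by simp
    show F 0 (projIcc 0 1 zero_le_one ((0 : ℝ) - ((0 : ℕ) : ℝ)), s) = g 0 s
    rw [h3, projIcc_left]
    exact (F 0).apply_zero s
  · intro s
    show G (1, s) = q
    exact if_pos rfl
  · intro τ
    show G (τ, 0) = G (τ, 1)
    by_cases hτ : τ = 1
    · have e1 : G (τ, 0) = q := if_pos hτ
      have e2 : G (τ, 1) = q := if_pos hτ
      rw [e1, e2]
    · have e1 : G (τ, 0) = teleMap F ((τ : ℝ) / (1 - τ), 0) := if_neg hτ
      have e2 : G (τ, 1) = teleMap F ((τ : ℝ) / (1 - τ), 1) := if_neg hτ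
      rw [e1, e2]
      exact teleMap_ends F hF _

end

end Pool.Agent.Work.MP_71c2fc_gt
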