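import Pool.Agent.Work.MP_71c2fc_gt.Sharp

set_option autoImplicit false

open Set Filter Topology
open scoped unitInterval

namespace Pool.Agent.Work.MP_71c2fc_gt

/-- Clamping of the height. -/
noncomputable def clampPP (n : ℕ) : PP n → PP n :=
  Quotient.map' (fun z : ℝ × ℝ => (z.1, max 0 (min z.2 1))) (by
    rintro a b ⟨h, h'⟩
    refine ⟨by show max 0 (min a.2 1) = max 0 (min b.2 1); rw [h], ?_⟩
    rcases h' with h' | ⟨h0, h'⟩ | h1
    · exact Or.inl h'
    · refine Or.inr (Or.inl ⟨?_, h'⟩)
      show max 0 (min a.2 1) ≤ 0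
      exact max_le le_rfl ((min_le_left _ _).trans h0)
    · refine Or.inr (Or.inr ?_)
      show 1 ≤ max 0 (min a.2 1)
      exact (le_min h1 le_rfl).trans (le_max_right _ _))

theorem clampPP_mk (n : ℕ) (z : ℝ × ℝ) :
    clampPP n (ppMk n z) = ppMk n (z.1, max 0 (min z.2 1)) := rfl

theorem continuous_clampPP (n : ℕ) : Continuous (clampPP n) := by
  rw [(isQuotientMap_ppMk n).continuous_iff]
  show Continuous fun z : ℝ × ℝ => ppMk n (z.1, max 0 (min z.2 1))
  exact (continuous_ppMk n).comp (by fun_prop)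

theorem clampPP_of_mem {n : ℕ} {z : ℝ × ℝ} (h0 : 0 ≤ z.2) (h1 : z.2 ≤ 1) :
    clampPP n (ppMk n z) = ppMk n z := by
  rw [clampPP_mk, min_eq_left h1, max_eq_right h0]

theorem clampPP_clampPP (n : ℕ) (z : PP n) : clampPP n (clampPP n z) = clampPP n z := by
  induction z using Quotient.inductionOn with
  | h a =>
    show clampPP n (ppMk n (a.1, max 0 (min a.2 1))) = ppMk n (a.1, max 0 (min a.2 1))
    exact clampPP_of_mem (le_max_left _ _) (max_le zero_le_one (min_le_right _ _))

/-- The compact pseudo-projective plane. -/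
def Core (n : ℕ) : Type := {z : PP n // clampPP n z = z}

noncomputable instance (n : ℕ) : TopologicalSpace (Core n) :=
  inferInstanceAs (TopologicalSpace {z : PP n // clampPP n z = z})

/-- The retraction onto the core. -/
noncomputable def toCore (n : ℕ) (z : PP n) : Core n := ⟨clampPP n z, clampPP_clampPP n z⟩

theorem continuous_toCore (n : ℕ) : Continuous (toCore n) :=
  (continuous_clampPP n).subtype_mk _

/-- The inclusion of the core. -/
def Core.val {n : ℕ} (z : Core n) : PP n := Subtype.val z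

theorem Core.continuous_val (n : ℕ) : Continuous (Core.val (n := n)) := continuous_subtype_val

theorem toCore_val {n : ℕ} (z : Core n) : toCore n z.val = z := Subtype.ext z.2

theorem isQuotientMap_toCore (n : ℕ) : IsQuotientMap (toCore n) :=
  IsQuotientMap.of_inverse (Core.continuous_val n) (continuous_toCore n) toCore_val

noncomputable instance (n : ℕ) : LocallyPathConnectedSpace (Core n) :=
  (isQuotientMap_toCore n).locallyPathConnectedSpace

instance (n : ℕ) : ConnectedSpace (PP n) := by
  have h1 : ConnectedSpace (ℝ × ℝ) := inferInstance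
  have h2 : IsConnected (range (ppMk n)) := isConnected_range (continuous_ppMk n)
  rw [(isQuotientMap_ppMk n).surjective.range_eq] at h2
  exact connectedSpace_iff_univ.2 h2

instance (n : ℕ) : ConnectedSpace (Core n) := by
  have h2 : IsConnected (range (toCore n)) := isConnected_range (continuous_toCore n)
  rw [(isQuotientMap_toCore n).surjective.range_eq] at h2
  exact connectedSpace_iff_univ.2 h2

instance (n : ℕ) : CompactSpace (Core n) := by
  have h1 : IsCompact ((fun z : ℝ × ℝ => toCore n (ppMk n z)) '' (Icc 0 1 ×ˢ Icc 0 1)) :=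
    (isCompact_Icc.prod isCompact_Icc).image ((continuous_toCore n).comp (continuous_ppMk n))
  have h2 : (fun z : ℝ × ℝ => toCore n (ppMk n z)) '' (Icc 0 1 ×ˢ Icc 0 1) = univ := by
    apply eq_univ_of_forall
    intro z
    obtain ⟨⟨a, s⟩, ha⟩ := (isQuotientMap_ppMk n).surjective z.val
    refine ⟨(Int.fract a, max 0 (min s 1)), ⟨⟨Int.fract_nonneg a, (Int.fract_lt_one a).le⟩,
      le_max_left _ _, max_le zero_le_one (min_le_right _ _)⟩, ?_⟩
    rw [← toCore_val z]
    apply Subtype.ext
    show clampPP n (ppMk n (Int.fract a, max 0 (min s 1))) = clampPP n z.val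
    rw [clampPP_of_mem (n := n) (z := (Int.fract a, max 0 (min s 1))) (le_max_left _ _)
      (max_le zero_le_one (min_le_right _ _)), ← ha, clampPP_mk]
    apply Quotient.sound (s := ppSetoid n)
    refine ⟨rfl, Or.inl ⟨-⌊a⌋, ?_⟩⟩
    show Int.fract a - a = _
    rw [Int.fract]
    push_cast
    ring
  rw [h2] at h1
  exact ⟨h1⟩

theorem liftsCircle_Core {n : ℕ} (hn : n ≠ 0) : LiftsCircle (Core n) := by
  intro φ hφ
  obtain ⟨f, hf, hfφ⟩ := liftsCircle_PP hn (fun z => φ (toCore n z))
    (hφ.comp (continuous_toCore n))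
  refine ⟨fun z => f z.val, hf.comp (Core.continuous_val n), ?_⟩
  intro z
  rw [hfφ, toCore_val]

/-- Coordinates which separate the points of the core. -/
noncomputable def emb₀ (n : ℕ) (z : ℝ × ℝ) : ℂ × ℂ × ℝ :=
  ((((1 - max 0 (min z.2 1)) * max 0 (min z.2 1) : ℝ) : ℂ) *
      Complex.exp (z.1 * (2 * Real.pi * Complex.I)),
    ((1 - max 0 (min z.2 1) : ℝ) : ℂ) * Complex.exp ((n * z.1) * (2 * Real.pi * Complex.I)),
    max 0 (min z.2 1))

theorem exp_eq_of_sub_int {a b : ℝ} {m : ℤ} (h : a - b = m) :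
    Complex.exp (a * (2 * Real.pi * Complex.I)) = Complex.exp (b * (2 * Real.pi * Complex.I)) := by
  rw [Complex.exp_eq_exp_iff_exists_int]
  refine ⟨m, ?_⟩
  have : (a : ℂ) = b + m := by
    have : a = b + m := by linarith
    rw [this]; push_cast; ring
  rw [this]
  ring

theorem sub_int_of_exp_eq {a b : ℝ}
    (h : Complex.exp (a * (2 * Real.pi * Complex.I)) =
      Complex.exp (b * (2 * Real.pi * Complex.I))) : ∃ m : ℤ, a - b = m := by
  rw [Complex.exp_eq_exp_iff_exists_int] at h
  obtain ⟨m, hm⟩ := h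
  refine ⟨m, ?_⟩
  have h2 : (2 * Real.pi * Complex.I : ℂ) ≠ 0 := Complex.two_pi_I_ne_zero
  have h3 : ((a : ℂ) - b - m) * (2 * Real.pi * Complex.I) = 0 := by
    rw [sub_mul, sub_mul, hm]; ring
  have h4 : (a : ℂ) - b - m = 0 := by
    rcases mul_eq_zero.1 h3 with h | h
    · exact h
    · exact absurd h h2
  have h5 : (((a - b - m : ℝ)) : ℂ) = 0 := by push_cast; exact h4
  have h6 : a - b - m = 0 := by exact_mod_cast h5
  linarith

theorem emb₀_rel {n : ℕ} {a b : ℝ × ℝ} (h : (ppSetoid n).r a b) : emb₀ n a = emb₀ n b := by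
  obtain ⟨h, h'⟩ := h
  unfold emb₀
  rw [h]
  rcases h' with ⟨m, hm⟩ | ⟨h0, m, hm⟩ | h1
  · have e1 := exp_eq_of_sub_int hm
    have e2 : Complex.exp ((n * a.1) * (2 * Real.pi * Complex.I)) =
        Complex.exp ((n * b.1) * (2 * Real.pi * Complex.I)) := by
      have := exp_eq_of_sub_int (a := n * a.1) (b := n * b.1) (m := n * m)
        (by push_cast; rw [← hm]; ring)
      push_cast at this
      exact this
    rw [e1, e2]
  · have e0 : max 0 (min b.2 1) = 0 := by
      rw [h] at h0
      exact le_antisymm (max_le le_rfl ((min_le_left _ _).trans h0)) (le_max_left _ _)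
    have e2 : Complex.exp ((n * a.1) * (2 * Real.pi * Complex.I)) =
        Complex.exp ((n * b.1) * (2 * Real.pi * Complex.I)) := by
      have := exp_eq_of_sub_int (a := n * a.1) (b := n * b.1) (m := m)
        (by rw [← hm]; ring)
      push_cast at this
      exact this
    rw [e0, e2]
    simp
  · have e0 : max 0 (min b.2 1) = 1 := by
      rw [h] at h1
      exact le_antisymm (max_le zero_le_one (min_le_right _ _))
        ((le_min h1 le_rfl).trans (le_max_right _ _))
    rw [e0]
    simp

/-- The coordinates on the pseudo-projective plane. -/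
noncomputable def emb (n : ℕ) : PP n → ℂ × ℂ × ℝ := Quotient.lift (emb₀ n) fun _ _ => emb₀_rel

theorem continuous_emb (n : ℕ) : Continuous (emb n) := by
  rw [(isQuotientMap_ppMk n).continuous_iff]
  show Continuous (emb₀ n)
  unfold emb₀
  fun_prop

theorem emb_injective (n : ℕ) : Function.Injective fun z : Core n => emb n z.val := by
  intro z w h
  rw [← toCore_val z, ← toCore_val w]
  obtain ⟨a, ha⟩ := (isQuotientMap_ppMk n).surjective z.val
  obtain ⟨b, hb⟩ := (isQuotientMap_ppMk n).surjective w.val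
  have h' : emb₀ n a = emb₀ n b := by
    have h1 : emb n z.val = emb n w.val := h
    rw [← ha, ← hb] at h1
    exact h1
  apply Subtype.ext
  show clampPP n z.val = clampPP n w.val
  rw [← ha, ← hb, clampPP_mk, clampPP_mk]
  unfold emb₀ at h'
  simp only [Prod.mk.injEq] at h'
  obtain ⟨e1, e2, e3⟩ := h'
  set s := max 0 (min a.2 1) with hs
  have hs0 : 0 ≤ s := le_max_left _ _
  have hs1 : s ≤ 1 := max_le zero_le_one (min_le_right _ _)
  rw [← e3] at e1 e2 ⊢
  apply Quotient.sound (s := ppSetoid n)
  refine ⟨rfl, ?_⟩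
  rcases eq_or_lt_of_le hs1 with h1 | h1
  · exact Or.inr (Or.inr h1.ge)
  · have h1' : ((1 - s : ℝ) : ℂ) ≠ 0 := by
      rw [Ne, Complex.ofReal_eq_zero]; linarith
    rcases eq_or_lt_of_le hs0 with h0 | h0
    · refine Or.inr (Or.inl ⟨h0.ge, ?_⟩)
      have e4 := mul_left_cancel₀ h1' e2
      have e5 : Complex.exp (((n * a.1 : ℝ) : ℂ) * (2 * Real.pi * Complex.I)) =
          Complex.exp (((n * b.1 : ℝ) : ℂ) * (2 * Real.pi * Complex.I)) := by
        push_cast; exact e4
      obtain ⟨m, hm⟩ := sub_int_of_exp_eq e5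
      refine ⟨m, ?_⟩
      show (n : ℝ) * (a.1 - b.1) = m
      rw [← hm]; ring
    · left
      have h2 : (((1 - s) * s : ℝ) : ℂ) ≠ 0 := by
        rw [Ne, Complex.ofReal_eq_zero]
        have : 0 < (1 - s) * s := mul_pos (by linarith) h0
        exact this.ne'
      exact sub_int_of_exp_eq (mul_left_cancel₀ h2 e1)

instance (n : ℕ) : T2Space (Core n) :=
  T2Space.of_injective_continuous (emb_injective n)
    ((continuous_emb n).comp (Core.continuous_val n))

instance (n : ℕ) : TopologicalSpace.MetrizableSpace (Core n) :=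
  (((continuous_emb n).comp (Core.continuous_val n)).isClosedEmbedding
    (emb_injective n)).isEmbedding.metrizableSpace

/-- The singular circle in the core. -/
noncomputable def cc (n : ℕ) (u : ℝ) : Core n := toCore n (psPi n (cs n u))

theorem continuous_cc (n : ℕ) : Continuous (cc n) :=
  (continuous_toCore n).comp ((continuous_psPi n).comp (continuous_cs n))

theorem val_cc (n : ℕ) (u : ℝ) : (cc n u).val = psPi n (cs n u) := by
  show clampPP n (ppMk n (u / n, 0)) = ppMk n (u / n, 0)
  exact clampPP_of_mem le_rfl zero_le_one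

theorem cc_add_one {n : ℕ} (hn : n ≠ 0) (u : ℝ) : cc n (u + 1) = cc n u := by
  unfold cc
  rw [cs_add_one hn]

end Pool.Agent.Work.MP_71c2fc_gt
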