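import Mathlib

set_option autoImplicit false

open Set Filter Topology

namespace Pool.Agent.Work.MP_71c2fc_gt

/-- The level `t` of the function `h i` on `T` is a good wall: every continuous map `f` of a compact
connected metrizable space `Z` to `T` which maps a nonempty closed connected set `F` to the level
`t` can be changed, without changing it on `F`, to a map `f'` whose image lies near the level `t`
and is not larger than that of `f` with respect to finitely many given functions `h j`, up to an
arbitrarily small error. -/
def GoodLevel {T : Type} [TopologicalSpace T] (h : ℕ → T → ℝ) (i : ℕ) (t : ℝ) : Prop :=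
  ∀ (Z : Type) [TopologicalSpace Z] [CompactSpace Z] [ConnectedSpace Z]
    [TopologicalSpace.MetrizableSpace Z]
    (F : Set Z) (f : C(Z, T)), IsClosed F → IsConnected F → (∀ z ∈ F, h i (f z) = t) →
    ∀ (m : ℕ) (η : ℝ), 0 < η → ∃ f' : C(Z, T), (∀ z ∈ F, f' z = f z) ∧
      ∀ z, |h i (f' z) - t| ≤ η ∧
        ∀ j ≤ m, ∃ a b : Z, h j (f a) - η ≤ h j (f' z) ∧ h j (f' z) ≤ h j (f b) + η

end Pool.Agent.Work.MP_71c2fc_gt
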