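import Pool.Agent.Work.MP_71c2fc_gt.LocMain
import Pool.Agent.Work.MP_71c2fc_gt.Free
import Pool.Agent.Work.MP_71c2fc_gt.Slice.Core

set_option autoImplicit false

open Set Filter Topology
open scoped unitInterval

namespace Pool.Agent.Work.MP_71c2fc_gt

section

variable {T : Type*} [TopologicalSpace T]

/-- Free homotopy of loops. -/
def FreeHom (g g' : C(I, T)) : Prop :=
  ∃ F : ContinuousMap.Homotopy g g', ∀ τ, F (τ, 0) = F (τ, 1)

theorem FreeHom.symm {g g' : C(I, T)} (h : FreeHom g g') : FreeHom g' g := by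
  obtain ⟨F, hF⟩ := h
  exact ⟨F.symm, fun τ => hF _⟩

theorem FreeHom.trans {g g' g'' : C(I, T)} (h : FreeHom g g') (h' : FreeHom g' g'') :
    FreeHom g g'' := by
  obtain ⟨F, hF⟩ := h
  obtain ⟨F', hF'⟩ := h'
  refine ⟨F.trans F', fun τ => ?_⟩
  rw [ContinuousMap.Homotopy.trans_apply, ContinuousMap.Homotopy.trans_apply]
  split_ifs
  · exact hF _
  · exact hF' _

/-- A path homotopy of loops is a free homotopy. -/
theorem FreeHom.of_homotopic {x : T} {γ γ' : Path x x} (h : γ.Homotopic γ') :
    FreeHom (γ : C(I, T)) (γ' : C(I, T)) := by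
  obtain ⟨A⟩ := h
  exact ⟨A.toHomotopy, fun τ => (A.source τ).trans (A.target τ).symm⟩

/-- The line which runs through `β`, then `δ`, then `β` reversed. -/
noncomputable def tailLine {x y : T} (β : Path x y) (δ : Path y y) : ℝ → T := fun u =>
  if u ≤ 0 then β.extend (1 + u) else if u ≤ 1 then δ.extend u else β.extend (2 - u)

theorem continuous_tailLine {x y : T} (β : Path x y) (δ : Path y y) :
    Continuous (tailLine β δ) := by
  unfold tailLine
  refine Continuous.if_le ?_ (Continuous.if_le ?_ ?_ continuous_id continuous_const ?_)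
    continuous_id continuous_const ?_
  · exact β.continuous_extend.comp (by fun_prop)
  · exact δ.continuous_extend
  · exact β.continuous_extend.comp (by fun_prop)
  · intro u hu
    have : u = 1 := hu
    subst this
    rw [δ.extend_one]
    norm_num
  · intro u hu
    have : u = 0 := hu
    subst this
    simp

theorem tailLine_one {x y : T} (β : Path x y) (δ : Path y y) {r : ℝ} (hr : r ≤ 1) :
    tailLine β δ (-1 + r) = β.extend r := by
  unfold tailLine
  rw [if_pos (by linarith)]
  congr 1
  ring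

theorem tailLine_two {x y : T} (β : Path x y) (δ : Path y y) {r : ℝ} (hr0 : 0 ≤ r) (hr : r ≤ 1) :
    tailLine β δ r = δ.extend r := by
  unfold tailLine
  rcases eq_or_lt_of_le hr0 with h | h
  · subst h
    simp
  · rw [if_neg (by linarith), if_pos hr]

theorem tailLine_three {x y : T} (β : Path x y) (δ : Path y y) {r : ℝ} (hr0 : 0 ≤ r) :
    tailLine β δ (1 + r) = β.extend (1 - r) := by
  unfold tailLine
  rcases eq_or_lt_of_le hr0 with h | h
  · subst h
    rw [if_neg (by norm_num), if_pos (by norm_num)]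
    simp
  · rw [if_neg (by linarith), if_neg (by linarith)]
    congr 1
    ring

/-- The linear path between two real numbers. -/
noncomputable def linPath (a b : ℝ) : Path a b where
  toFun s := (1 - (s : ℝ)) * a + (s : ℝ) * b
  continuous_toFun := by fun_prop
  source' := by simp
  target' := by simp

theorem linPath_apply (a b : ℝ) (s : I) : linPath a b s = (1 - (s : ℝ)) * a + (s : ℝ) * b := rfl

theorem tailLine_lin_one {x y : T} (β : Path x y) (δ : Path y y) (s : I) :
    tailLine β δ (linPath (-1) 0 s) = β s := by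
  rw [linPath_apply, show (1 - (s : ℝ)) * (-1) + (s : ℝ) * 0 = -1 + (s : ℝ) by ring,
    tailLine_one β δ s.2.2]
  exact β.extend_apply s.2

theorem tailLine_lin_two {x y : T} (β : Path x y) (δ : Path y y) (s : I) :
    tailLine β δ (linPath 0 1 s) = δ s := by
  rw [linPath_apply, show (1 - (s : ℝ)) * 0 + (s : ℝ) * 1 = (s : ℝ) by ring,
    tailLine_two β δ s.2.1 s.2.2]
  exact δ.extend_apply s.2

theorem tailLine_lin_three {x y : T} (β : Path x y) (δ : Path y y) (s : I) :
    tailLine β δ (linPath 1 2 s) = β.symm s := by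
  rw [linPath_apply, show (1 - (s : ℝ)) * 1 + (s : ℝ) * 2 = 1 + (s : ℝ) by ring,
    tailLine_three β δ s.2.1]
  exact β.extend_apply (unitInterval.symm s).2

/-- A loop and its conjugates are freely homotopic. -/
theorem FreeHom.of_conj {x y : T} (β : Path x y) (δ : Path y y) :
    FreeHom (((β.trans δ).trans β.symm : Path x x) : C(I, T)) (δ : C(I, T)) := by
  let E : C(ℝ, T) := ⟨tailLine β δ, continuous_tailLine β δ⟩
  have hE0 : E (-1) = x := by
    have := tailLine_one β δ (r := 0) zero_le_one
    rw [add_zero] at this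
    show tailLine β δ (-1) = x
    rw [this]
    simp
  have hE2 : E 2 = x := by
    have := tailLine_three β δ (r := 1) zero_le_one
    show tailLine β δ 2 = x
    rw [show (2 : ℝ) = 1 + 1 by norm_num, this]
    simp
  let e' : Path x x := ((linPath (-1) 2).map E.continuous).cast hE0.symm hE2.symm
  have h1 : ((((linPath (-1) 0).trans (linPath 0 1)).trans (linPath 1 2))).Homotopic
      (linPath (-1) 2) := SimplyConnectedSpace.paths_homotopic _ _
  have h2 := (h1.map E).pathCast hE0.symm hE2.symm
  have h3 : (β.trans δ).trans β.symm =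
      ((((linPath (-1) 0).trans (linPath 0 1)).trans (linPath 1 2)).map E.continuous).cast
        hE0.symm hE2.symm := by
    ext t
    rw [Path.cast_coe, Path.map_coe, Function.comp_apply, Path.trans_apply, Path.trans_apply]
    split_ifs with ht
    · rw [Path.trans_apply, Path.trans_apply]
      split_ifs with ht'
      · exact (tailLine_lin_one β δ _).symm
      · exact (tailLine_lin_two β δ _).symm
    · exact (tailLine_lin_three β δ _).symm
  have h4 : ((β.trans δ).trans β.symm).Homotopic e' := by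
    rw [h3]; exact h2
  refine (FreeHom.of_homotopic h4).trans ?_
  have hF : Continuous fun z : I × I => E (-(1 - (z.1 : ℝ)) + (1 + 2 * (1 - (z.1 : ℝ))) * z.2) :=
    E.continuous.comp (by fun_prop)
  refine ⟨⟨⟨_, hF⟩, ?_, ?_⟩, ?_⟩
  · intro s
    show E (-(1 - ((0 : I) : ℝ)) + (1 + 2 * (1 - ((0 : I) : ℝ))) * s) = E (linPath (-1) 2 s)
    rw [linPath_apply]
    congr 1
    norm_num
    ring
  · intro s
    show E (-(1 - ((1 : I) : ℝ)) + (1 + 2 * (1 - ((1 : I) : ℝ))) * s) = δ s
    rw [← tailLine_lin_two β δ s, linPath_apply]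
    show tailLine β δ _ = tailLine β δ _
    congr 1
    norm_num
  · intro τ
    show tailLine β δ (-(1 - (τ : ℝ)) + (1 + 2 * (1 - (τ : ℝ))) * ((0 : I) : ℝ)) =
      tailLine β δ (-(1 - (τ : ℝ)) + (1 + 2 * (1 - (τ : ℝ))) * ((1 : I) : ℝ))
    have e1 : -(1 - (τ : ℝ)) + (1 + 2 * (1 - (τ : ℝ))) * ((0 : I) : ℝ) = -1 + (τ : ℝ) := by
      norm_num
      ring
    have e2 : -(1 - (τ : ℝ)) + (1 + 2 * (1 - (τ : ℝ))) * ((1 : I) : ℝ) = 1 + (1 - (τ : ℝ)) := by
      norm_num
      ring
    rw [e1, e2, tailLine_one β δ τ.2.2, tailLine_three β δ (by linarith [τ.2.2])]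
    congr 1
    ring

/-- A loop which is freely homotopic to a constant is nullhomotopic. -/
theorem FreeHom.null {x : T} {γ : Path x x} {q : T}
    (h : FreeHom (γ : C(I, T)) (ContinuousMap.const I q)) : γ.Homotopic (Path.refl x) := by
  obtain ⟨F, hF⟩ := h
  refine null_of_free γ (Path.refl q) F.toContinuousMap (fun s => F.apply_zero s)
    (fun s => F.apply_one s) hF (Path.Homotopic.refl _)

/-- Images of freely homotopic loops. -/
theorem FreeHom.map {T' : Type*} [TopologicalSpace T'] {g g' : C(I, T)} (h : FreeHom g g')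
    (φ : C(T, T')) : FreeHom (φ.comp g) (φ.comp g') := by
  obtain ⟨F, hF⟩ := h
  refine ⟨⟨φ.comp F.toContinuousMap, fun s => ?_, fun s => ?_⟩, fun τ => ?_⟩
  · exact congrArg φ (F.apply_zero s)
  · exact congrArg φ (F.apply_one s)
  · exact congrArg φ (hF τ)

end

/-- The class of a loop below a curve of holonomy `j` is the conjugate of the `j`-th power. -/
theorem conj_of_lift {X : Type*} [TopologicalSpace X] {x : X} (γ : Path x x) {n : ℕ} (hn : n ≠ 0)
    (H : PP n → X) (hH : Continuous H) (hγ : ∀ t : I, H (psPi n (cs n t)) = γ t)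
    {u : ℝ} {j : ℕ} (w : Path (cs n u) (cs n u)) (θ : Path u (u + ((j : ℤ) : ℝ)))
    (hθ : ∀ r, ((θ r : ℝ) : AddCircle (1 : ℝ)) = ang n (w r)) {y : X} (δ : Path y y)
    (hδw : ∀ r, δ r = H (psPi n (w r))) :
    ∃ β : Path x y, FundamentalGroup.fromPath (Path.Homotopic.Quotient.mk
      ((β.trans δ).trans β.symm)) = (FundamentalGroup.fromPath (Path.Homotopic.Quotient.mk γ)) ^ j := by
  have hΓc : Continuous fun t : ℝ => H (psPi n (cs n t)) :=
    hH.comp ((continuous_psPi n).comp (continuous_cs n))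
  let Γ : C(ℝ, X) := ⟨fun t : ℝ => H (psPi n (cs n t)), hΓc⟩
  have hy : y = Γ u := by
    have := hδw 0
    rw [δ.source, w.source] at this
    exact this
  subst hy
  have hper : ∀ t : ℝ, Γ (t + 1) = Γ t := by
    intro t
    show H (psPi n (cs n (t + 1))) = H (psPi n (cs n t))
    rw [cs_add_one hn]
  have hperj : ∀ t : ℝ, Γ (t + j) = Γ t := by
    intro t
    have := Function.Periodic.nat_mul (f := Γ) hper j t
    simpa using this
  have h0 : Γ 0 = x := by
    have := hγ 0
    show H (psPi n (cs n ((0 : I) : ℝ))) = x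
    rw [this]; simp
  have hk : H (psPi n (cs n u)) = H (psPi n (cs n (u + ((j : ℤ) : ℝ)))) := by
    have := hperj u
    show Γ u = Γ (u + ((j : ℤ) : ℝ))
    rw [← this]
    push_cast
    rfl
  have hhom := hol_homotopic hn H hH w θ hθ hΓc hk
  let e₁ : Path (0 : ℝ) u :=
    { toFun := fun r => (r : ℝ) * u
      continuous_toFun := by fun_prop
      source' := by simp
      target' := by simp }
  let e₃ : Path (u + ((j : ℤ) : ℝ)) (j : ℝ) :=
    { toFun := fun r => (1 - (r : ℝ)) * u + j
      continuous_toFun := by fun_prop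
      source' := by simp
      target' := by simp }
  let β : Path x (Γ u) := (e₁.map Γ.continuous).cast h0.symm rfl
  let δ' : Path (Γ u) (Γ u) := (θ.map Γ.continuous).cast rfl hk
  have hδeq : δ = w.map (f := fun z => H (psPi n z)) (hH.comp (continuous_psPi n)) := by
    ext r
    rw [hδw]
    rfl
  have hδ : δ.Homotopic δ' := by
    rw [hδeq]
    exact hhom
  refine ⟨β, ?_⟩
  have hΓγ : ∀ t : I, Γ (t : ℝ) = γ t := hγ
  rw [pow_eq_powLoop γ Γ hΓγ hper h0 j]
  congr 1
  rw [Path.Homotopic.Quotient.eq]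
  have h1 : ((β.trans δ).trans β.symm).Homotopic ((β.trans δ').trans β.symm) :=
    ((Path.Homotopic.refl β).hcomp hδ).hcomp (Path.Homotopic.refl _)
  refine h1.trans ?_
  have h2 : ((e₁.trans θ).trans e₃).Homotopic (segPath j) :=
    SimplyConnectedSpace.paths_homotopic _ _
  have h3 := (h2.map Γ).pathCast h0.symm (periodic_nat hper h0 j).symm
  have h4 : (β.trans δ').trans β.symm = (((e₁.trans θ).trans e₃).map Γ.continuous).cast h0.symm
      (periodic_nat hper h0 j).symm := by
    ext t
    rw [Path.cast_coe, Path.map_coe, Function.comp_apply, Path.trans_apply, Path.trans_apply]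
    split_ifs with ht
    · rw [Path.trans_apply, Path.trans_apply]
      split_ifs with ht'
      · rfl
      · rfl
    · show Γ ((unitInterval.symm _ : I) * u) = Γ ((1 - _) * u + j)
      rw [hperj]
      rfl
  rw [h4]
  exact h3

section

variable {T : Type*} [TopologicalSpace T]

/-- The loop along the singular circle, as a map of the interval. -/
noncomputable def coreMap {n : ℕ} (f : C(Core n, T)) : C(I, T) :=
  ⟨fun s => f (cc n s), f.continuous.comp ((continuous_cc n).comp continuous_subtype_val)⟩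

theorem coreMap_apply {n : ℕ} (f : C(Core n, T)) (s : I) : coreMap f s = f (cc n s) := rfl

/-- The loop along the singular circle. -/
noncomputable def coreLoop {n : ℕ} (hn : n ≠ 0) (f : C(Core n, T)) :
    Path (f (cc n 0)) (f (cc n 0)) where
  toFun s := f (cc n s)
  continuous_toFun := f.continuous.comp ((continuous_cc n).comp continuous_subtype_val)
  source' := by simp
  target' := by
    have := cc_add_one hn 0
    rw [zero_add] at this
    show f (cc n ((1 : I) : ℝ)) = _
    rw [← this]
    simp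

theorem coreLoop_apply {n : ℕ} (hn : n ≠ 0) (f : C(Core n, T)) (s : I) :
    coreLoop hn f s = f (cc n s) := rfl

/-- The `n`-th power of the loop along the singular circle is trivial. -/
theorem coreLoop_pow {n : ℕ} (hn : n ≠ 0) (f : C(Core n, T)) :
    (FundamentalGroup.fromPath (Path.Homotopic.Quotient.mk (coreLoop hn f))) ^ n = 1 := by
  let Γ : C(ℝ, T) := ⟨fun t : ℝ => f (cc n t), f.continuous.comp (continuous_cc n)⟩
  have hper : ∀ t : ℝ, Γ (t + 1) = Γ t := fun t => by
    show f (cc n (t + 1)) = f (cc n t)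
    rw [cc_add_one hn]
  have h0 : Γ 0 = f (cc n 0) := rfl
  rw [pow_eq_powLoop (coreLoop hn f) Γ (fun t => rfl) hper h0 n, FundamentalGroup.one_def]
  congr 1
  have hn' : (n : ℝ) ≠ 0 := Nat.cast_ne_zero.2 hn
  suffices h : (powLoop Γ hper h0 n).Homotopic (Path.refl (f (cc n 0))) from
    (Path.Homotopic.Quotient.eq).2 h
  have hF : Continuous fun z : I × I => f (toCore n (ppMk n ((z.2 : ℝ), (z.1 : ℝ)))) :=
    f.continuous.comp ((continuous_toCore n).comp ((continuous_ppMk n).comp (by fun_prop)))
  apply FreeHom.null (q := f (toCore n (ppMk n (0, 1))))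
  refine ⟨⟨⟨_, hF⟩, ?_, ?_⟩, ?_⟩
  · intro s
    show f (toCore n (ppMk n ((s : ℝ), ((0 : I) : ℝ)))) = powLoop Γ hper h0 n s
    rw [powLoop_apply]
    show _ = f (toCore n (ppMk n (n * (s : ℝ) / n, 0)))
    rw [mul_div_cancel_left₀ _ hn']
    simp
  · intro s
    show f (toCore n (ppMk n ((s : ℝ), ((1 : I) : ℝ)))) = f (toCore n (ppMk n (0, 1)))
    congr 2
    apply Quotient.sound (s := ppSetoid n)
    refine ⟨by simp, Or.inr (Or.inr (by simp))⟩
  · intro τ
    show f (toCore n (ppMk n (((0 : I) : ℝ), (τ : ℝ)))) =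
      f (toCore n (ppMk n (((1 : I) : ℝ), (τ : ℝ))))
    congr 2
    apply Quotient.sound (s := ppSetoid n)
    exact ⟨rfl, Or.inl ⟨-1, by simp⟩⟩

/-- Two maps which agree along a curve of holonomy prime to `p` have freely homotopic core
loops. -/
theorem freeHom_of_agree {p : ℕ} (hp : p.Prime) {f f' : C(Core p, T)} {S : Set (PP p)} {u : ℝ}
    {k : ℤ} (hol : Hol p S u u k) (hk : ¬ (p : ℤ) ∣ k)
    (hff : ∀ z ∈ S, f (toCore p z) = f' (toCore p z)) : FreeHom (coreMap f) (coreMap f') := by
  have hp0 : p ≠ 0 := hp.ne_zero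
  have hco : IsCoprime k (p : ℤ) := by
    rw [isCoprime_comm]
    exact (Nat.prime_iff_prime_int.1 hp).coprime_iff_not_dvd.2 hk
  have hk0 : k ≠ 0 := by
    intro h0
    apply hk
    rw [h0]; exact dvd_zero _
  obtain ⟨j, ⟨w, θ, hw, hθ⟩, hj1⟩ := hol.exists_one hco hk0
  let δ : Path (f (toCore p (psPi p (cs p u)))) (f (toCore p (psPi p (cs p u)))) :=
    w.map (f := fun z => f (toCore p (psPi p z)))
      (f.continuous.comp ((continuous_toCore p).comp (continuous_psPi p)))
  have key : ∀ (g : C(Core p, T)), (∀ r, δ r = g (toCore p (psPi p (w r)))) →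
      FreeHom (coreMap g) (δ : C(I, T)) := by
    intro g hg
    obtain ⟨β, hβ⟩ := conj_of_lift (coreLoop hp0 g) hp0 (fun z => g (toCore p z))
      (g.continuous.comp (continuous_toCore p)) (fun t => rfl) w θ hθ δ hg
    rw [pow_eq_pow_mod j (coreLoop_pow hp0 g), hj1, Nat.mod_eq_of_lt hp.one_lt, pow_one] at hβ
    have h1 : ((β.trans δ).trans β.symm).Homotopic (coreLoop hp0 g) := by
      rw [← Path.Homotopic.Quotient.eq]
      exact hβ
    exact (FreeHom.of_homotopic h1).symm.trans (FreeHom.of_conj β δ)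
  have h1 := key f fun r => rfl
  have h2 := key f' fun r => hff _ (hw r)
  exact h1.trans h2.symm

/-- The free homotopy stays in the union of the images. -/
theorem freeHom_of_agree' {p : ℕ} (hp : p.Prime) {f f' : C(Core p, T)} {S : Set (PP p)} {u : ℝ}
    {k : ℤ} (hol : Hol p S u u k) (hk : ¬ (p : ℤ) ∣ k)
    (hff : ∀ z ∈ S, f (toCore p z) = f' (toCore p z)) :
    ∃ F : ContinuousMap.Homotopy (coreMap f) (coreMap f'), (∀ τ, F (τ, 0) = F (τ, 1)) ∧
      ∀ z, F z ∈ range f ∪ range f' := by
  let R : Set T := range f ∪ range f'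
  let fR : C(Core p, R) := ⟨fun z => ⟨f z, Or.inl ⟨z, rfl⟩⟩, f.continuous.subtype_mk _⟩
  let fR' : C(Core p, R) := ⟨fun z => ⟨f' z, Or.inr ⟨z, rfl⟩⟩, f'.continuous.subtype_mk _⟩
  obtain ⟨F, hF⟩ := freeHom_of_agree (f := fR) (f' := fR') hp hol hk
    (fun z hz => Subtype.ext (hff z hz))
  refine ⟨⟨⟨fun z => (F z : T), by fun_prop⟩, fun s => ?_, fun s => ?_⟩, fun τ => ?_, fun z => ?_⟩
  · exact congrArg Subtype.val (F.apply_zero s)
  · exact congrArg Subtype.val (F.apply_one s)
  · exact congrArg Subtype.val (hF τ)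
  · exact (F z).2

end

end Pool.Agent.Work.MP_71c2fc_gt
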