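import Pool.Agent.Work.MP_71c2fc_gt.Slice.Step
import Pool.Agent.Work.MP_71c2fc_gt.Slice.Chain

set_option autoImplicit false

open Set Filter Topology
open scoped unitInterval

namespace Pool.Agent.Work.MP_71c2fc_gt

section

variable {T : Type} [TopologicalSpace T] {p : ℕ} {h : ℕ → T → ℝ} {fs : ℕ → C(Core p, T)}

/-- Ranges do not grow much. -/
theorem range_control
    (hB : ∀ m z, ∀ j ≤ m, ∃ a b, h j (fs m a) - (1 / 2) ^ m ≤ h j (fs (m + 1) z) ∧
      h j (fs (m + 1) z) ≤ h j (fs m b) + (1 / 2) ^ m) (m j : ℕ) (hj : j ≤ m) (d : ℕ) :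
    ∀ z, ∃ a b, h j (fs m a) - 2 * (1 / 2) ^ m + 2 * (1 / 2) ^ (m + d) ≤ h j (fs (m + d) z) ∧
      h j (fs (m + d) z) ≤ h j (fs m b) + 2 * (1 / 2) ^ m - 2 * (1 / 2) ^ (m + d) := by
  induction d with
  | zero => exact fun z => ⟨z, z, by simp, by simp⟩
  | succ d ih =>
    intro z
    obtain ⟨a, b, h1, h2⟩ := hB (m + d) z j (by omega)
    obtain ⟨a', _, h3, _⟩ := ih a
    obtain ⟨_, b', _, h4⟩ := ih b
    have e : (1 / 2 : ℝ) ^ (m + (d + 1)) = (1 / 2) ^ (m + d) / 2 := by
      rw [← add_assoc, pow_succ]; ring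
    refine ⟨a', b', ?_, ?_⟩
    · rw [e]
      have h5 : h j (fs (m + (d + 1)) z) = h j (fs (m + d + 1) z) := rfl
      rw [h5]
      linarith
    · rw [e]
      have h5 : h j (fs (m + (d + 1)) z) = h j (fs (m + d + 1) z) := rfl
      rw [h5]
      linarith

/-- The values of every function converge. -/
theorem osc_control
    (hA : ∀ m z z', |h (Nat.unpair m).1 (fs (m + 1) z) - h (Nat.unpair m).1 (fs (m + 1) z')| ≤
      (1 / 2) ^ m)
    (hB : ∀ m z, ∀ j ≤ m, ∃ a b, h j (fs m a) - (1 / 2) ^ m ≤ h j (fs (m + 1) z) ∧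
      h j (fs (m + 1) z) ≤ h j (fs m b) + (1 / 2) ^ m) (j : ℕ) {δ : ℝ} (hδ : 0 < δ) :
    ∃ M, ∀ m, M ≤ m → ∀ m', M ≤ m' → ∀ z z', |h j (fs m z) - h j (fs m' z')| ≤ δ := by
  obtain ⟨k, hk⟩ := exists_pow_lt_of_lt_one (show (0 : ℝ) < δ / 3 by positivity)
    (show (1 / 2 : ℝ) < 1 by norm_num)
  set m₀ := Nat.pair j k with hm₀
  have hun : (Nat.unpair m₀).1 = j := by rw [hm₀, Nat.unpair_pair]
  have hj : j ≤ m₀ := Nat.left_le_pair j k
  have hkm : k ≤ m₀ := Nat.right_le_pair j k
  have hpow : (1 / 2 : ℝ) ^ m₀ ≤ (1 / 2) ^ k :=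
    pow_le_pow_of_le_one (by norm_num) (by norm_num) hkm
  have hosc := hA m₀
  rw [hun] at hosc
  have e : (1 / 2 : ℝ) ^ (m₀ + 1) = (1 / 2) ^ m₀ / 2 := by rw [pow_succ]; ring
  refine ⟨m₀ + 1, ?_⟩
  intro m hm m' hm' z z'
  obtain ⟨d, rfl⟩ := Nat.exists_eq_add_of_le hm
  obtain ⟨d', rfl⟩ := Nat.exists_eq_add_of_le hm'
  obtain ⟨a, b, h1, h2⟩ := range_control hB (m₀ + 1) j (by omega) d z
  obtain ⟨a', b', h1', h2'⟩ := range_control hB (m₀ + 1) j (by omega) d' z'
  have p1 : (0 : ℝ) ≤ (1 / 2) ^ (m₀ + 1 + d) := by positivity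
  have p2 : (0 : ℝ) ≤ (1 / 2) ^ (m₀ + 1 + d') := by positivity
  have o1 := abs_le.1 (hosc b a')
  have o2 := abs_le.1 (hosc b' a)
  rw [abs_le]
  constructor
  · linarith [o2.1, o2.2]
  · linarith [o1.1, o1.2]

end

/-- A map of the core into an open set with torsion-free fundamental groups. -/
theorem null_of_torsionFree {T : Type} [TopologicalSpace T] {V : Set T}
    (hV : ∀ (v : V) (g : FundamentalGroup V v), IsOfFinOrder g → g = 1) {p : ℕ} (hp : p.Prime)
    (f : C(Core p, T)) (hf : ∀ z, f z ∈ V) :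
    ∃ q, FreeHom (coreMap f) (ContinuousMap.const I q) := by
  let fV : C(Core p, V) := ⟨fun z => ⟨f z, hf z⟩, f.continuous.subtype_mk _⟩
  have h1 : IsOfFinOrder (FundamentalGroup.fromPath (Path.Homotopic.Quotient.mk
      (coreLoop hp.ne_zero fV))) :=
    isOfFinOrder_iff_pow_eq_one.2 ⟨p, hp.pos, coreLoop_pow hp.ne_zero fV⟩
  have h2 := hV _ _ h1
  have h3 : (coreLoop hp.ne_zero fV).Homotopic (Path.refl _) :=
    (Path.Homotopic.Quotient.eq).1 h2
  exact ⟨f (cc p 0), (FreeHom.of_homotopic h3).map (T' := T) ⟨Subtype.val, continuous_subtype_val⟩⟩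

/-- The core loop of every map of the pseudo-projective plane to a space with a proper family of
functions with dense good levels is freely homotopic to a constant, if every connected set on which
all functions are constant is a point or has a neighbourhood with torsion-free fundamental
groups. -/
theorem null_of_goodLevels {T : Type} [TopologicalSpace T] [T2Space T] {h : ℕ → T → ℝ}
    (hc : ∀ j, Continuous (h j))
    (hproper : ∀ M : ℕ → ℝ, IsCompact {x | ∀ j, |h j x| ≤ M j})
    (hD : ∀ i, Dense {t | GoodLevel h i t})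
    (hlight : ∀ C : Set T, IsCompact C → IsConnected C →
      (∀ j, ∀ a ∈ C, ∀ b ∈ C, h j a = h j b) → C.Subsingleton ∨
      ∃ V : Set T, IsOpen V ∧ C ⊆ V ∧
        ∀ (v : V) (g : FundamentalGroup V v), IsOfFinOrder g → g = 1)
    {p : ℕ} (hp : p.Prime) (f₀ : C(Core p, T)) :
    ∃ q, FreeHom (coreMap f₀) (ContinuousMap.const I q) := by
  classical
  have hstep := fun (f : C(Core p, T)) (m : ℕ) => exists_step hp hc (hD (Nat.unpair m).1) f m
    (show (0 : ℝ) < (1 / 2) ^ m by positivity)
  choose nxt h1 h2 h3 F h4 h5 using hstep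
  let fs : ℕ → C(Core p, T) := fun m => Nat.rec f₀ (fun m f => nxt f m) m
  have hsucc : ∀ m, fs (m + 1) = nxt (fs m) m := fun m => rfl
  have hA : ∀ m z z', |h (Nat.unpair m).1 (fs (m + 1) z) - h (Nat.unpair m).1 (fs (m + 1) z')| ≤
      (1 / 2) ^ m := fun m => h1 (fs m) m
  have hB : ∀ m z, ∀ j ≤ m, ∃ a b, h j (fs m a) - (1 / 2) ^ m ≤ h j (fs (m + 1) z) ∧
      h j (fs (m + 1) z) ≤ h j (fs m b) + (1 / 2) ^ m := fun m => h2 (fs m) m
  have hmeet : ∀ m, ∃ z, fs (m + 1) z = fs m z := fun m => h3 (fs m) m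
  -- bounds
  have hbd : ∀ j, ∃ B : ℝ, ∀ m z, |h j (fs m z)| ≤ B := by
    intro j
    have h6 : ∀ m, ∃ B : ℝ, ∀ z, |h j (fs m z)| ≤ B := by
      intro m
      obtain ⟨B, hB'⟩ := isCompact_univ.exists_bound_of_continuousOn
        (f := fun z => h j (fs m z)) ((hc j).comp (fs m).continuous).continuousOn
      exact ⟨B, fun z => hB' z trivial⟩
    choose B hB' using h6
    have hBnn : ∀ m, 0 ≤ B m := by
      intro m
      exact (abs_nonneg _).trans (hB' m (cc p 0))
    refine ⟨∑ m ∈ Finset.range (j + 1), B m + 2, ?_⟩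
    intro m z
    rcases Nat.lt_or_ge m (j + 1) with hm | hm
    · have h7 : B m ≤ ∑ m ∈ Finset.range (j + 1), B m :=
        Finset.single_le_sum (f := B) (fun m _ => hBnn m) (Finset.mem_range.2 hm)
      linarith [hB' m z]
    · obtain ⟨d, rfl⟩ := Nat.exists_eq_add_of_le (show j ≤ m by omega)
      have h7 : B j ≤ ∑ m ∈ Finset.range (j + 1), B m :=
        Finset.single_le_sum (f := B) (fun m _ => hBnn m) (Finset.mem_range.2 (by omega))
      obtain ⟨a, b, h8, h9⟩ := range_control hB j j le_rfl d z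
      have h10 := abs_le.1 (hB' j a)
      have h11 := abs_le.1 (hB' j b)
      have h12 : (1 / 2 : ℝ) ^ j ≤ 1 := pow_le_one₀ (by norm_num) (by norm_num)
      have h13 : (0 : ℝ) ≤ (1 / 2) ^ (j + d) := by positivity
      rw [abs_le]
      constructor
      · linarith [h10.1]
      · linarith [h11.2]
  choose M hM using hbd
  set K₀ : Set T := {x | ∀ j, |h j x| ≤ M j} with hK₀
  have hK₀c : IsCompact K₀ := hproper M
  let A : ℕ → Set T := fun m => closure (⋃ d, range (fs (m + d)))
  have hUK : ∀ m, (⋃ d, range (fs (m + d))) ⊆ K₀ := by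
    intro m x hx
    obtain ⟨d, z, rfl⟩ := mem_iUnion.1 hx
    exact fun j => hM j _ z
  have hAK : ∀ m, A m ⊆ K₀ := fun m => closure_minimal (hUK m) hK₀c.isClosed
  have hAc : ∀ m, IsPreconnected (A m) := by
    intro m
    apply IsPreconnected.closure
    apply IsPreconnected.iUnion_of_chain
    · intro d
      exact isPreconnected_range (fs (m + d)).continuous
    · intro d
      obtain ⟨z, hz⟩ := hmeet (m + d)
      exact ⟨fs (m + d) z, ⟨z, rfl⟩, ⟨z, hz⟩⟩
  have hAmem : ∀ m m', m ≤ m' → ∀ z, fs m' z ∈ A m := by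
    intro m m' hmm z
    obtain ⟨d, rfl⟩ := Nat.exists_eq_add_of_le hmm
    exact subset_closure (mem_iUnion.2 ⟨d, z, rfl⟩)
  set V : Ultrafilter ℕ := hyperfilter ℕ with hV
  have hVtop : (V : Filter ℕ) ≤ atTop := by
    rw [hV]; exact Nat.hyperfilter_le_atTop
  -- all functions are constant on the limit set
  have hconst : ∀ j, ∀ a ∈ limSet V A, ∀ b ∈ limSet V A, h j a = h j b := by
    intro j a ha b hb
    have hosc : ∀ δ : ℝ, 0 < δ → |h j a - h j b| ≤ δ := by
      intro δ hδ
      obtain ⟨N, hN⟩ := osc_control hA hB j hδ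
      -- the oscillation on `A N` is at most `δ`
      have h6 : ∀ x ∈ A N, ∀ y ∈ A N, |h j x - h j y| ≤ δ := by
        have h7 : ∀ x ∈ A N, ∀ y ∈ ⋃ d, range (fs (N + d)), |h j x - h j y| ≤ δ := by
          intro x hx y hy
          obtain ⟨d', z', rfl⟩ := mem_iUnion.1 hy
          have hcl : IsClosed {x | |h j x - h j (fs (N + d') z')| ≤ δ} :=
            isClosed_le (by have := hc j; fun_prop) continuous_const
          refine closure_minimal ?_ hcl hx
          intro x' hx'
          obtain ⟨d, z, rfl⟩ := mem_iUnion.1 hx'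
          exact hN _ (by omega) _ (by omega) z z'
        intro x hx y hy
        have hcl : IsClosed {y | |h j x - h j y| ≤ δ} :=
          isClosed_le (by have := hc j; fun_prop) continuous_const
        exact closure_minimal (fun y' hy' => h7 x hx y' hy') hcl hy
      have hanti : ∀ m, N ≤ m → A m ⊆ A N := by
        intro m hm
        apply closure_mono
        intro x hx
        obtain ⟨d, z, rfl⟩ := mem_iUnion.1 hx
        obtain ⟨e, rfl⟩ := Nat.exists_eq_add_of_le hm
        exact mem_iUnion.2 ⟨e + d, z, by rw [add_assoc]⟩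
      have hsub : limSet V A ⊆ A N := by
        intro x hx
        have h7 : x ∈ closure (A N) := by
          rw [mem_closure_iff]
          intro O hO hxO
          obtain ⟨n, ⟨y, hy1, hy2⟩, hn⟩ :=
            ((hx O hO hxO).and (hVtop (eventually_ge_atTop N))).exists
          exact ⟨y, hy1, hanti n hn hy2⟩
        rwa [isClosed_closure.closure_eq] at h7
      exact h6 a (hsub ha) b (hsub hb)
    by_contra hne
    have hpos : 0 < |h j a - h j b| := abs_pos.2 (sub_ne_zero.2 hne)
    have := hosc (|h j a - h j b| / 2) (by positivity)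
    linarith
  have hlc : IsPreconnected (limSet V A) := isPreconnected_limSet hK₀c hAK hAc
  obtain ⟨q, hqK, hq⟩ := exists_ultra_lim V hK₀c (fun m => fs m (cc p 0))
    (Eventually.of_forall fun m => fun j => hM j _ _)
  have hqL : q ∈ limSet V A :=
    mem_limSet_of_tendsto (f := fun m => fs m (cc p 0)) (fun m => hAmem m m le_rfl _) hq
  have hLK : limSet V A ⊆ K₀ := limSet_subset hK₀c hAK
  have hLc : IsCompact (limSet V A) := hK₀c.of_isClosed_subset isClosed_limSet hLK
  -- the images shrink to the limit set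
  have hshrink : ∀ U : Set T, IsOpen U → limSet V A ⊆ U → ∃ N, A N ⊆ U := by
    intro U hU hLU
    by_contra hcon
    push Not at hcon
    have hb : ∀ m, ∃ b ∈ A m, b ∉ U := fun m => Set.not_subset.1 (hcon m)
    choose b hbA hbU using hb
    obtain ⟨y, _, hy⟩ := exists_ultra_lim V hK₀c b (Eventually.of_forall fun m => hAK m (hbA m))
    have hyL : y ∈ limSet V A := mem_limSet_of_tendsto hbA hy
    have h6 : ∀ᶠ m in (V : Filter ℕ), b m ∈ U := hy (hU.mem_nhds (hLU hyL))
    obtain ⟨m, hm⟩ := h6.exists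
    exact hbU m hm
  rcases hlight _ hLc ⟨⟨q, hqL⟩, hlc⟩ hconst with hsing | ⟨V₀, hV₀, hLV, htf⟩
  swap
  · obtain ⟨N, hN⟩ := hshrink V₀ hV₀ hLV
    obtain ⟨q', hq'⟩ := null_of_torsionFree htf hp (fs N) (fun z => hN (hAmem N N le_rfl z))
    have hfin : ∀ m, FreeHom (coreMap (fs 0)) (coreMap (fs m)) := by
      intro m
      induction m with
      | zero => exact ⟨ContinuousMap.Homotopy.refl _, fun τ => by
          have := (coreLoop hp.ne_zero (fs 0)).source.trans (coreLoop hp.ne_zero (fs 0)).target.symm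
          exact this⟩
      | succ m ih => exact ih.trans ⟨F (fs m) m, h4 (fs m) m⟩
    exact ⟨q', (hfin N).trans hq'⟩
  refine ⟨q, ?_⟩
  have hchain := FreeHom.of_chain (g := fun m => coreMap (fs m)) (fun m => F (fs m) m)
    (fun m τ => h4 (fs m) m τ) q (by
      intro U hU
      obtain ⟨N, hN⟩ := hshrink (interior U) isOpen_interior (by
        intro y hy
        rw [hsing hy hqL]
        exact mem_interior_iff_mem_nhds.2 hU)
      refine ⟨N, fun m hm z => interior_subset (hN ?_)⟩
      rcases h5 (fs m) m z with ⟨w, hw⟩ | ⟨w, hw⟩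
      · rw [← hw]
        exact hAmem N m hm w
      · rw [← hw]
        exact hAmem N (m + 1) (by omega) w)
  exact hchain

/-- Sliceable spaces: there is a sequence of continuous real functions which is proper (the sets on
which every one of them is bounded by a given number are compact), such that for each of them the
good levels are dense, and such that every compact connected set on which all of them are constant
is a point or has an open neighbourhood with torsion-free fundamental groups. -/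
def Sliceable (T : Type) [TopologicalSpace T] : Prop :=
  ∃ h : ℕ → T → ℝ, (∀ j, Continuous (h j)) ∧
    (∀ M : ℕ → ℝ, IsCompact {x | ∀ j, |h j x| ≤ M j}) ∧
    (∀ i, Dense {t | GoodLevel h i t}) ∧
    ∀ C : Set T, IsCompact C → IsConnected C → (∀ j, ∀ a ∈ C, ∀ b ∈ C, h j a = h j b) →
      C.Subsingleton ∨ ∃ V : Set T, IsOpen V ∧ C ⊆ V ∧
        ∀ (v : V) (g : FundamentalGroup V v), IsOfFinOrder g → g = 1

/-- The inclusion of every compact subset is homotopic to a map which factors through a sliceable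
Hausdorff space. -/
def DeformsToSliceable (X : Type) [TopologicalSpace X] : Prop :=
  ∀ K : Set X, IsCompact K → ∃ (T : Type) (_ : TopologicalSpace T) (_ : T2Space T)
    (d : K → T) (u : T → X) (D : X × I → X), Sliceable T ∧ Continuous d ∧ Continuous u ∧
      ContinuousOn D (K ×ˢ univ) ∧ (∀ a : K, D (a, 0) = a) ∧ (∀ a : K, D (a, 1) = u (d a))

theorem prime_order_trivial {X : Type} [TopologicalSpace X] [T2Space X]
    (hX : DeformsToSliceable X) {x : X} (γ : Path x x) {p : ℕ} (hp : p.Prime)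
    (hpow : (FundamentalGroup.fromPath (Path.Homotopic.Quotient.mk γ)) ^ p = 1) :
    FundamentalGroup.fromPath (Path.Homotopic.Quotient.mk γ) = 1 := by
  obtain ⟨H, hH, hHK, hγ⟩ := exists_PP_map' γ hp.ne_zero hpow
  obtain ⟨T, _, _, d, u, D, ⟨h, hc, hproper, hD, hlight⟩, hd, hu, hDc, hD0, hD1⟩ :=
    hX (range H) hHK
  have hG : Continuous fun z : Core p × I => D (H z.1.val, z.2) := by
    refine hDc.comp_continuous (f := fun z : Core p × I => (H z.1.val, z.2)) ?_ ?_
    · exact (hH.comp ((Core.continuous_val p).comp continuous_fst)).prodMk continuous_snd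
    · exact fun z => ⟨⟨_, rfl⟩, trivial⟩
  let f₀ : C(Core p, T) := ⟨fun z => d ⟨H z.val, ⟨_, rfl⟩⟩,
    hd.comp ((hH.comp (Core.continuous_val p)).subtype_mk _)⟩
  obtain ⟨q, hq⟩ := null_of_goodLevels hc hproper hD hlight hp f₀
  have h1 := hq.map (T' := X) ⟨u, hu⟩
  have e2 : (⟨u, hu⟩ : C(T, X)).comp (ContinuousMap.const I q) =
      ContinuousMap.const I (u q) := rfl
  rw [e2] at h1
  -- the deformation of the loop
  have hF : Continuous fun z : I × I => D (H (cc p z.2).val, z.1) :=
    hG.comp (((continuous_cc p).comp (by fun_prop : Continuous fun z : I × I => (z.2 : ℝ))).prodMk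
      continuous_fst)
  have h2 : FreeHom (γ : C(I, X)) ((⟨u, hu⟩ : C(T, X)).comp (coreMap f₀)) := by
    refine ⟨⟨⟨_, hF⟩, fun s => ?_, fun s => ?_⟩, fun τ => ?_⟩
    · show D (H (cc p s).val, 0) = γ s
      rw [hD0 ⟨_, ⟨_, rfl⟩⟩]
      show H (cc p s).val = γ s
      rw [val_cc]
      exact hγ s
    · exact hD1 ⟨_, ⟨_, rfl⟩⟩
    · show D (H (cc p ((0 : I) : ℝ)).val, τ) = D (H (cc p ((1 : I) : ℝ)).val, τ)
      have := cc_add_one hp.ne_zero 0
      rw [zero_add] at this
      have e0 : cc p ((0 : I) : ℝ) = cc p 0 := by simp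
      have e1 : cc p ((1 : I) : ℝ) = cc p 1 := by simp
      rw [e0, e1, this]
  have h3 := (h2.trans h1).null
  rw [FundamentalGroup.one_def]
  congr 1
  exact (Path.Homotopic.Quotient.eq).2 h3

/-- A sliceable space factors through itself. -/
theorem Sliceable.deforms {X : Type} [TopologicalSpace X] [T2Space X] (hX : Sliceable X) :
    DeformsToSliceable X := fun _ _ =>
  ⟨X, inferInstance, inferInstance, Subtype.val, id, fun z => z.1, hX, continuous_subtype_val,
    continuous_id, continuous_fst.continuousOn, fun _ => rfl, fun _ => rfl⟩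

/-- If every compact subset can be deformed into a sliceable subset then the fundamental group is
torsion-free. -/
theorem torsionFree_of_sliceable {X : Type} [TopologicalSpace X] [T2Space X]
    (hX : DeformsToSliceable X) (x : X) (g : FundamentalGroup X x) (hg : IsOfFinOrder g) :
    g = 1 := by
  by_contra hne
  have hN : 1 < orderOf g := by
    have h1 : 0 < orderOf g := hg.orderOf_pos
    have h2 : orderOf g ≠ 1 := fun h => hne (orderOf_eq_one_iff.1 h)
    omega
  obtain ⟨p, hp, hpN⟩ := Nat.exists_prime_and_dvd (show orderOf g ≠ 1 by omega)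
  obtain ⟨k, hk⟩ := hpN
  have hk0 : k ≠ 0 := by
    rintro rfl
    rw [mul_zero] at hk
    omega
  obtain ⟨γ, hγ⟩ := Path.Homotopic.Quotient.mk_surjective (g ^ k)
  have h1 : (FundamentalGroup.fromPath (Path.Homotopic.Quotient.mk γ)) ^ p = 1 := by
    rw [hγ]
    show (g ^ k) ^ p = 1
    rw [← pow_mul, mul_comm, ← hk]
    exact pow_orderOf_eq_one g
  have h2 := prime_order_trivial hX γ hp h1
  rw [hγ] at h2
  have h3 : g ^ k = 1 := h2
  have h4 := orderOf_dvd_of_pow_eq_one h3
  have h5 : orderOf g ≤ k := Nat.le_of_dvd (Nat.pos_of_ne_zero hk0) h4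
  have h6 := hp.two_le
  nlinarith [Nat.pos_of_ne_zero hk0]

end Pool.Agent.Work.MP_71c2fc_gt
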