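import Pool.Agent.Work.MP_71c2fc_gt.Slice.Unicoh

set_option autoImplicit false

open Set Filter Topology

namespace Pool.Agent.Work.MP_71c2fc_gt

section

variable {P : Type*} [TopologicalSpace P] {T : Type*} [TopologicalSpace T]

/-- Replacement of a map on finitely many components of the complement of an open set. -/
theorem replace_finset {S : Set P} (hSo : IsOpen S) (f : P → T) (hf : Continuous f)
    (g : P → P → T) (t : Finset P)
    (hg : ∀ x ∈ t, ContinuousOn (g x) (connectedComponentIn Sᶜ x))
    (hgf : ∀ x ∈ t, ∀ z ∈ frontier (connectedComponentIn Sᶜ x), g x z = f z) :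
    ∃ f' : P → T, Continuous f' ∧ ∀ z, (∃ x ∈ t, z ∈ connectedComponentIn Sᶜ x ∧ f' z = g x z) ∨
      ((∀ x ∈ t, z ∉ connectedComponentIn Sᶜ x) ∧ f' z = f z) := by
  classical
  induction t using Finset.induction_on with
  | empty => exact ⟨f, hf, fun z => Or.inr ⟨by simp, rfl⟩⟩
  | insert a t ha ih =>
    obtain ⟨f', hf', hcase⟩ := ih (fun x hx => hg x (Finset.mem_insert_of_mem hx))
      (fun x hx => hgf x (Finset.mem_insert_of_mem hx))
    by_cases hcov : ∃ x ∈ t, a ∈ connectedComponentIn Sᶜ x
    · obtain ⟨x, hx, hax⟩ := hcov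
      have heq : connectedComponentIn Sᶜ a = connectedComponentIn Sᶜ x :=
        (connectedComponentIn_eq hax).symm
      refine ⟨f', hf', fun z => ?_⟩
      rcases hcase z with ⟨y, hy, hzy, h⟩ | ⟨h1, h2⟩
      · left
        exact ⟨y, Finset.mem_insert_of_mem hy, hzy, h⟩
      · right
        refine ⟨?_, h2⟩
        intro y hy
        rcases Finset.mem_insert.1 hy with rfl | hy
        · rw [heq]; exact h1 x hx
        · exact h1 y hy
    · push Not at hcov
      set Z := connectedComponentIn Sᶜ a with hZ
      have hZc : IsClosed Z := isClosed_comp_compl hSo a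
      have hdis : ∀ z ∈ Z, ∀ x ∈ t, z ∉ connectedComponentIn Sᶜ x := by
        intro z hz x hx hzx
        have haS : a ∈ Sᶜ := connectedComponentIn_nonempty_iff.1 ⟨z, hz⟩
        have e1 := connectedComponentIn_eq hz
        have e2 := connectedComponentIn_eq hzx
        apply hcov x hx
        rw [e2, ← e1]
        exact mem_connectedComponentIn haS
      have hf'Z : ∀ z ∈ Z, f' z = f z := by
        intro z hz
        rcases hcase z with ⟨y, hy, hzy, _⟩ | ⟨_, h2⟩
        · exact absurd hzy (hdis z hz y hy)
        · exact h2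
      let f'' : P → T := fun z => if z ∈ Z then g a z else f' z
      have h1 : ∀ z ∈ Z, f'' z = g a z := fun z hz => if_pos hz
      have h2 : ∀ z ∉ Z, f'' z = f' z := fun z hz => if_neg hz
      have h3 : ∀ z ∈ closure Zᶜ, f'' z = f' z := by
        intro z hz
        by_cases hzZ : z ∈ Z
        · have hfr : z ∈ frontier Z := by
            rw [frontier_eq_closure_inter_closure]
            exact ⟨subset_closure hzZ, hz⟩
          rw [h1 z hzZ, hgf a (Finset.mem_insert_self _ _) z hfr, hf'Z z hzZ]
        · exact h2 z hzZ
      refine ⟨f'', ?_, ?_⟩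
      · have hc1 : ContinuousOn f'' Z :=
          (hg a (Finset.mem_insert_self _ _)).congr h1
        have hc2 : ContinuousOn f'' (closure Zᶜ) := hf'.continuousOn.congr h3
        have hc3 := hc1.union_of_isClosed hc2 hZc isClosed_closure
        have hu : Z ∪ closure Zᶜ = univ := by
          apply eq_univ_of_forall
          intro z
          by_cases hz : z ∈ Z
          · exact Or.inl hz
          · exact Or.inr (subset_closure hz)
        rw [hu] at hc3
        exact continuousOn_univ.1 hc3
      · intro z
        by_cases hz : z ∈ Z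
        · left
          exact ⟨a, Finset.mem_insert_self _ _, hz, h1 z hz⟩
        · rcases hcase z with ⟨y, hy, hzy, h⟩ | ⟨h4, h5⟩
          · left
            exact ⟨y, Finset.mem_insert_of_mem hy, hzy, by rw [h2 z hz, h]⟩
          · right
            refine ⟨?_, by rw [h2 z hz, h5]⟩
            intro y hy
            rcases Finset.mem_insert.1 hy with rfl | hy
            · exact hz
            · exact h4 y hy

/-- Only finitely many components of the complement of a slab component leave a larger slab. -/
theorem exists_finite_big [LocallyConnectedSpace P] [CompactSpace P] {v : P → ℝ}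
    (hv : Continuous v) {α β α' β' : ℝ} (hα : α' < α) (hβ : β < β') {S : Set P}
    (hS : S ⊆ {x | α < v x ∧ v x < β}) :
    ∃ t : Finset P, (∀ x ∈ t, x ∈ Sᶜ) ∧
      ∀ z, (v z ≤ α' ∨ β' ≤ v z) → ∃ x ∈ t, z ∈ connectedComponentIn Sᶜ x := by
  have hV : IsCompact {z | v z ≤ α' ∨ β' ≤ v z} :=
    ((isClosed_le hv continuous_const).union (isClosed_le continuous_const hv)).isCompact
  have hVS : ∀ x, (v x ≤ α' ∨ β' ≤ v x) → x ∈ Sᶜ := by
    intro x hx hxS
    have := hS hxS
    rcases hx with hx | hx
    · linarith [this.1]
    · linarith [this.2]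
  have hnhds : ∀ x ∈ {z | v z ≤ α' ∨ β' ≤ v z}, connectedComponentIn Sᶜ x ∈ 𝓝 x := by
    intro x hx
    have hO : IsOpen {z | v z < α ∨ β < v z} :=
      (isOpen_lt hv continuous_const).union (isOpen_lt continuous_const hv)
    have hxO : x ∈ {z | v z < α ∨ β < v z} := by
      rcases hx with hx | hx
      · exact Or.inl (by linarith)
      · exact Or.inr (by linarith)
    have hOS : {z | v z < α ∨ β < v z} ⊆ Sᶜ := by
      intro z hz hzS
      have := hS hzS
      rcases hz with hz | hz
      · linarith [this.1]
      · linarith [this.2]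
    have h1 : connectedComponentIn {z | v z < α ∨ β < v z} x ⊆ connectedComponentIn Sᶜ x :=
      connectedComponentIn_mono x hOS
    exact mem_of_superset (hO.connectedComponentIn.mem_nhds (mem_connectedComponentIn hxO)) h1
  obtain ⟨t, ht, hcov⟩ := hV.elim_nhds_subcover _ hnhds
  refine ⟨t, fun x hx => hVS x (ht x hx), ?_⟩
  intro z hz
  have := hcov hz
  simpa using this

end

end Pool.Agent.Work.MP_71c2fc_gt
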