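import Pool.Agent.Work.MP_71c2fc_gt.Slice.Replace
import Pool.Agent.Work.MP_71c2fc_gt.Slice.FreeHom
import Pool.Agent.Work.MP_71c2fc_gt.Slice.Defs

set_option autoImplicit false

open Set Filter Topology
open scoped unitInterval

namespace Pool.Agent.Work.MP_71c2fc_gt

/-- A connected subset of the pseudo-projective plane with small oscillation of a real function
which carries a curve of holonomy prime to `p`. -/
theorem exists_carrier {p : ℕ} (hp : p.Prime) (v : PP p → ℝ) (hv : Continuous v) {δ : ℝ}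
    (hδ : 0 < δ) :
    ∃ (S : Set (PP p)) (u : ℝ) (k : ℤ), IsPreconnected S ∧ psPi p (cs p u) ∈ S ∧
      (∀ a ∈ S, ∀ b ∈ S, |v a - v b| ≤ 4 * δ) ∧ Hol p S u u k ∧ ¬ (p : ℤ) ∣ k := by
  have hN : ¬ (p : ℤ) ∣ 1 := by
    intro hd
    have := Int.natCast_dvd_natCast.1 (by simpa using hd : (p : ℤ) ∣ ((1 : ℕ) : ℤ))
    exact hp.one_lt.ne' (Nat.dvd_one.1 this)
  have hpos : ∀ (k : ℤ) (z : PP p), 0 < max 0 (1 - |v z / δ - k|) ↔ |v z / δ - k| < 1 := by
    intro k z
    rw [lt_max_iff]
    constructor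
    · rintro (h | h)
      · exact absurd h (lt_irrefl _)
      · linarith
    · intro h
      right
      linarith
  obtain ⟨S, u, k, hS, hu, hd, hol, hk⟩ := carry_stage (n := p) hp.ne_zero hN v
    (d := fun (k : ℤ) z => max 0 (1 - |v z / δ - k|)) (fun k => by fun_prop)
    (fun k z => le_max_left _ _)
    (fun z => ⟨⌊v z / δ⌋, by
      rw [hpos, abs_of_nonneg (sub_nonneg.2 (Int.floor_le _))]
      linarith [Int.lt_floor_add_one (v z / δ)]⟩)
    (fun z k l m hk hl hm => by
      rw [hpos] at hk hl hm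
      rw [abs_lt] at hk hl hm
      have h1 : ((k - l : ℤ) : ℝ) < 2 := by push_cast; linarith
      have h2 : ((l - k : ℤ) : ℝ) < 2 := by push_cast; linarith
      have h3 : ((k - m : ℤ) : ℝ) < 2 := by push_cast; linarith
      have h4 : ((m - k : ℤ) : ℝ) < 2 := by push_cast; linarith
      have h5 : ((l - m : ℤ) : ℝ) < 2 := by push_cast; linarith
      have h6 : ((m - l : ℤ) : ℝ) < 2 := by push_cast; linarith
      have h1' : k - l < 2 := by exact_mod_cast h1
      have h2' : l - k < 2 := by exact_mod_cast h2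
      have h3' : k - m < 2 := by exact_mod_cast h3
      have h4' : m - k < 2 := by exact_mod_cast h4
      have h5' : l - m < 2 := by exact_mod_cast h5
      have h6' : m - l < 2 := by exact_mod_cast h6
      omega)
    (ε := 2 * δ) (fun k a b ha hb => by
      rw [hpos, abs_lt] at ha hb
      have h1 : |v a / δ - v b / δ| ≤ 2 := by
        rw [abs_le]
        constructor <;> linarith
      have h2 : v a - v b = δ * (v a / δ - v b / δ) := by
        field_simp
      rw [Real.dist_eq, h2, abs_mul, abs_of_pos hδ]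
      nlinarith)
  refine ⟨S, u, k, hS, hu, fun a ha b hb => ?_, hol, hk⟩
  have := hd a ha b hb
  rw [Real.dist_eq] at this
  linarith

/-- One step: the map is made thin in the direction `h i` without changing the free homotopy class
of its core loop. -/
theorem exists_step {p : ℕ} (hp : p.Prime) {T : Type} [TopologicalSpace T] {h : ℕ → T → ℝ}
    (hc : ∀ j, Continuous (h j)) {i : ℕ} (hD : Dense {t | GoodLevel h i t}) (f : C(Core p, T))
    (m : ℕ) {ε : ℝ} (hε : 0 < ε) :
    ∃ f' : C(Core p, T), (∀ z z', |h i (f' z) - h i (f' z')| ≤ ε) ∧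
      (∀ z, ∀ j ≤ m, ∃ a b, h j (f a) - ε ≤ h j (f' z) ∧ h j (f' z) ≤ h j (f b) + ε) ∧
      (∃ z, f' z = f z) ∧
      ∃ F : ContinuousMap.Homotopy (coreMap f) (coreMap f'), (∀ τ, F (τ, 0) = F (τ, 1)) ∧
        ∀ z, F z ∈ range f ∪ range f' := by
  classical
  set δ : ℝ := ε / 12 with hδdef
  have hδ : 0 < δ := by positivity
  let v : Core p → ℝ := fun z => h i (f z)
  have hv : Continuous v := (hc i).comp f.continuous
  obtain ⟨S₀, u, k, hS₀, hu, hosc, hol, hk⟩ := exists_carrier hp (fun z => v (toCore p z))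
    (hv.comp (continuous_toCore p)) hδ
  let s₀ : Core p := toCore p (psPi p (cs p u))
  obtain ⟨α, hαg, hα1, hα2⟩ := hD.exists_between
    (show v s₀ - 5 * δ < v s₀ - 4 * δ by linarith)
  obtain ⟨β, hβg, hβ1, hβ2⟩ := hD.exists_between
    (show v s₀ + 4 * δ < v s₀ + 5 * δ by linarith)
  set O : Set (Core p) := {x | α < v x ∧ v x < β} with hO
  set S := connectedComponentIn O s₀ with hS
  have hOo : IsOpen O := (isOpen_lt continuous_const hv).inter (isOpen_lt hv continuous_const)
  have hSo : IsOpen S := hOo.connectedComponentIn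
  have hSO : S ⊆ O := connectedComponentIn_subset _ _
  have hs₀O : s₀ ∈ O := ⟨by linarith, by linarith⟩
  have hs₀S : s₀ ∈ S := mem_connectedComponentIn hs₀O
  have hSc : IsPreconnected S := isPreconnected_connectedComponentIn
  have hS₀S : ∀ z ∈ S₀, toCore p z ∈ S := by
    have h1 : IsPreconnected (toCore p '' S₀) := hS₀.image _ (continuous_toCore p).continuousOn
    have h2 : toCore p '' S₀ ⊆ O := by
      rintro _ ⟨z, hz, rfl⟩
      have := abs_le.1 (hosc z hz _ hu)
      have h3 : v (toCore p (psPi p (cs p u))) = v s₀ := rfl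
      rw [h3] at this
      exact ⟨by linarith [this.1], by linarith [this.2]⟩
    have h3 := h1.subset_connectedComponentIn (mem_image_of_mem _ hu) h2
    intro z hz
    exact h3 (mem_image_of_mem _ hz)
  obtain ⟨t, ht, hbig⟩ := exists_finite_big hv (α := α) (β := β) (α' := v s₀ - 6 * δ)
    (β' := v s₀ + 6 * δ) (by linarith) (by linarith) hSO
  -- the new maps on the components
  have hnew : ∀ x ∈ t, ∃ g : Core p → T, ContinuousOn g (connectedComponentIn Sᶜ x) ∧
      (∀ z ∈ frontier (connectedComponentIn Sᶜ x), g z = f z) ∧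
      ∀ z ∈ connectedComponentIn Sᶜ x, (α - δ ≤ h i (g z) ∧ h i (g z) ≤ β + δ) ∧
        ∀ j ≤ m, ∃ a b, h j (f a) - ε ≤ h j (g z) ∧ h j (g z) ≤ h j (f b) + ε := by
    intro x hx
    set Z := connectedComponentIn Sᶜ x with hZ
    have hxS : x ∈ Sᶜ := ht x hx
    have hxZ : x ∈ Z := mem_connectedComponentIn hxS
    have hZc : IsClosed Z := isClosed_comp_compl hSo x
    have hZS : Z ⊆ Sᶜ := connectedComponentIn_subset _ _
    have : CompactSpace Z := isCompact_iff_compactSpace.1 hZc.isCompact
    have : ConnectedSpace Z :=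
      isConnected_iff_connectedSpace.1 ⟨⟨x, hxZ⟩, isPreconnected_connectedComponentIn⟩
    have hFc : IsPreconnected (frontier Z) :=
      isPreconnected_frontier_comp (liftsCircle_Core hp.ne_zero) hSo hSc ⟨s₀, hs₀S⟩ hxS
    have hFne : (frontier Z).Nonempty := by
      rw [nonempty_frontier_iff]
      refine ⟨⟨x, hxZ⟩, ?_⟩
      intro hcon
      have : s₀ ∈ Z := by rw [hcon]; trivial
      exact hZS this hs₀S
    have hwall : ∀ z ∈ frontier Z, v z = α ∨ v z = β := frontier_comp_walls hv hxS
    have hsub : frontier Z ⊆ Z := hZc.frontier_subset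
    -- the function is constant on the frontier
    have hconst : ∃ c, (c = α ∨ c = β) ∧ ∀ z ∈ frontier Z, v z = c := by
      obtain ⟨z₀, hz₀⟩ := hFne
      refine ⟨v z₀, hwall z₀ hz₀, fun z hz => ?_⟩
      have hfin : DiscreteTopology ({α, β} : Set ℝ) := inferInstance
      refine hFc.constant_of_mapsTo (T := ({α, β} : Set ℝ)) ⟨hfin⟩ hv.continuousOn ?_ hz hz₀
      intro y hy
      exact hwall y hy
    obtain ⟨c, hcαβ, hcF⟩ := hconst
    have hgood : GoodLevel h i c := by
      rcases hcαβ with h | h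
      · rw [h]; exact hαg
      · rw [h]; exact hβg
    let fZ : C(Z, T) := ⟨fun z => f z, f.continuous.comp continuous_subtype_val⟩
    let F : Set Z := Subtype.val ⁻¹' frontier Z
    have hFcl : IsClosed F := isClosed_frontier.preimage continuous_subtype_val
    have hFimg : Subtype.val '' F = frontier Z := by
      rw [image_preimage_eq_inter_range, Subtype.range_val, inter_eq_left.2 hsub]
    have hFcon : IsConnected F := by
      refine ⟨?_, ?_⟩
      · rw [← Set.image_nonempty (f := Subtype.val), hFimg]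
        exact hFne
      · rw [← (IsInducing.subtypeVal (t := Z)).isPreconnected_image, hFimg]
        exact hFc
    obtain ⟨g, hg1, hg2⟩ := hgood Z F fZ hFcl hFcon (fun z hz => hcF z hz) m (min δ ε)
      (lt_min hδ hε)
    refine ⟨fun z => if hz : z ∈ Z then g ⟨z, hz⟩ else f z, ?_, ?_, ?_⟩
    · rw [continuousOn_iff_continuous_domRestrict]
      have : Z.domRestrict (fun z => if hz : z ∈ Z then g ⟨z, hz⟩ else f z) = g := by
        ext z
        exact dif_pos z.2
      rw [this]
      exact g.continuous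
    · intro z hz
      have hzZ : z ∈ Z := hsub hz
      show (if hz : z ∈ Z then g ⟨z, hz⟩ else f z) = f z
      rw [dif_pos hzZ]
      exact hg1 ⟨z, hzZ⟩ hz
    · intro z hz
      have e : (if hz : z ∈ Z then g ⟨z, hz⟩ else f z) = g ⟨z, hz⟩ := dif_pos hz
      simp only [e]
      obtain ⟨h1, h2⟩ := hg2 ⟨z, hz⟩
      have h3 : |h i (g ⟨z, hz⟩) - c| ≤ δ := h1.trans (min_le_left _ _)
      rw [abs_le] at h3
      refine ⟨?_, ?_⟩
      · rcases hcαβ with h | h
        · rw [h] at h3
          exact ⟨by linarith, by linarith⟩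
        · rw [h] at h3
          exact ⟨by linarith, by linarith⟩
      · intro j hj
        obtain ⟨a, b, h4, h5⟩ := h2 j hj
        have h6 : min δ ε ≤ ε := min_le_right _ _
        exact ⟨a, b, by linarith [show h j (fZ a) = h j (f a) from rfl],
          by linarith [show h j (fZ b) = h j (f b) from rfl]⟩
  have hTne : Nonempty T := ⟨f s₀⟩
  choose! g hg1 hg2 hg3 using hnew
  obtain ⟨f', hf', hcase⟩ := replace_finset hSo f f.continuous g t hg1 hg2
  have hfS : ∀ z ∈ S, f' z = f z := by
    intro z hz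
    rcases hcase z with ⟨x, hx, hzx, _⟩ | ⟨_, h⟩
    · exact absurd hz (connectedComponentIn_subset _ _ hzx)
    · exact h
  have hrange : ∀ z, v s₀ - 6 * δ ≤ h i (f' z) ∧ h i (f' z) ≤ v s₀ + 6 * δ := by
    intro z
    rcases hcase z with ⟨x, hx, hzx, hh⟩ | ⟨hno, hh⟩
    · rw [hh]
      have := (hg3 x hx z hzx).1
      exact ⟨by linarith [this.1], by linarith [this.2]⟩
    · rw [hh]
      have h1 : ¬ (v z ≤ v s₀ - 6 * δ ∨ v s₀ + 6 * δ ≤ v z) := by
        intro hcon
        obtain ⟨x, hx, hzx⟩ := hbig z hcon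
        exact hno x hx hzx
      push Not at h1
      exact ⟨h1.1.le, h1.2.le⟩
  refine ⟨⟨f', hf'⟩, ?_, ?_, ⟨s₀, hfS s₀ hs₀S⟩, ?_⟩
  · intro z z'
    have h1 := hrange z
    have h2 := hrange z'
    show |h i (f' z) - h i (f' z')| ≤ ε
    rw [abs_le]
    constructor <;> linarith [h1.1, h1.2, h2.1, h2.2]
  · intro z j hj
    show ∃ a b, h j (f a) - ε ≤ h j (f' z) ∧ h j (f' z) ≤ h j (f b) + ε
    rcases hcase z with ⟨x, hx, hzx, hh⟩ | ⟨_, hh⟩
    · rw [hh]
      exact (hg3 x hx z hzx).2 j hj
    · rw [hh]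
      exact ⟨z, z, by linarith, by linarith⟩
  · exact freeHom_of_agree' hp hol hk fun z hz => (hfS _ (hS₀S z hz)).symm

end Pool.Agent.Work.MP_71c2fc_gt
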