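import Pool.Agent.Work.MP_71c2fc_gt.Nodes

set_option autoImplicit false

open Set Filter Topology

namespace Pool.Agent.Work.MP_71c2fc_gt

section

variable {P : Type*} [TopologicalSpace P]

/-- A preconnected subset of a set which contains a point of a component of it lies in the
component. -/
theorem isClosed_comp_compl {S : Set P} (hSo : IsOpen S) (z : P) :
    IsClosed (connectedComponentIn Sᶜ z) := by
  by_cases hz : z ∈ Sᶜ
  · have h1 : IsPreconnected (closure (connectedComponentIn Sᶜ z)) :=
      isPreconnected_connectedComponentIn.closure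
    have h2 : closure (connectedComponentIn Sᶜ z) ⊆ Sᶜ :=
      closure_minimal (connectedComponentIn_subset _ _) hSo.isClosed_compl
    have h3 : closure (connectedComponentIn Sᶜ z) ⊆ connectedComponentIn Sᶜ z :=
      h1.subset_connectedComponentIn (subset_closure (mem_connectedComponentIn hz)) h2
    exact closure_subset_iff_isClosed.1 h3
  · rw [connectedComponentIn_eq_empty hz]
    exact isClosed_empty

/-- The complement of a component of the complement of a connected open set is connected. -/
theorem isPreconnected_compl_comp [LocallyConnectedSpace P] [PreconnectedSpace P] {S : Set P}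
    (hSo : IsOpen S) (hS : IsPreconnected S) (hSne : S.Nonempty) {z : P} (hz : z ∈ Sᶜ) :
    IsPreconnected (connectedComponentIn Sᶜ z)ᶜ := by
  set Z := connectedComponentIn Sᶜ z with hZ
  have hZc : IsClosed Z := isClosed_comp_compl hSo z
  have hzZ : z ∈ Z := mem_connectedComponentIn hz
  have hZS : Z ⊆ Sᶜ := connectedComponentIn_subset _ _
  obtain ⟨s₀, hs₀⟩ := hSne
  have hSZ : S ⊆ Zᶜ := fun x hx hxZ => hZS hxZ hx
  apply isPreconnected_of_forall s₀
  intro y hy
  set B := connectedComponentIn Zᶜ y with hB
  have hBo : IsOpen B := hZc.isOpen_compl.connectedComponentIn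
  have hyB : y ∈ B := mem_connectedComponentIn hy
  have hBZ : B ⊆ Zᶜ := connectedComponentIn_subset _ _
  have hBc : IsPreconnected B := isPreconnected_connectedComponentIn
  have hmeet : (B ∩ S).Nonempty := by
    by_contra hcon
    rw [not_nonempty_iff_eq_empty] at hcon
    have hBS : B ⊆ Sᶜ := by
      intro x hx hxS
      have : x ∈ B ∩ S := ⟨hx, hxS⟩
      rw [hcon] at this
      exact this
    -- the closure of `B` meets `Z`
    have h1 : (closure B ∩ Z).Nonempty := by
      by_contra hcon'
      rw [not_nonempty_iff_eq_empty] at hcon'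
      have h2 : closure B ⊆ Zᶜ := by
        intro x hx hxZ
        have : x ∈ closure B ∩ Z := ⟨hx, hxZ⟩
        rw [hcon'] at this
        exact this
      have h3 : closure B ⊆ B :=
        hBc.closure.subset_connectedComponentIn (subset_closure hyB) h2
      have h4 : IsClopen B := ⟨closure_subset_iff_isClosed.1 h3, hBo⟩
      have h5 : B = univ := h4.eq_univ ⟨y, hyB⟩
      have : s₀ ∈ B := by rw [h5]; trivial
      exact hBS this hs₀
    obtain ⟨p, hpB, hpZ⟩ := h1
    have h2 : IsPreconnected (insert p B) := by
      apply hBc.subset_closure (subset_insert _ _)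
      exact insert_subset hpB subset_closure
    have h3 : IsPreconnected (insert p B ∪ Z) :=
      IsPreconnected.union p (mem_insert _ _) hpZ h2 isPreconnected_connectedComponentIn
    have h4 : insert p B ∪ Z ⊆ Sᶜ := by
      apply union_subset _ hZS
      exact insert_subset (hZS hpZ) hBS
    have h5 : insert p B ∪ Z ⊆ Z := h3.subset_connectedComponentIn (Or.inr hzZ) h4
    exact hBZ hyB (h5 (Or.inl (mem_insert_of_mem _ hyB)))
  obtain ⟨b, hbB, hbS⟩ := hmeet
  exact ⟨S ∪ B, union_subset hSZ hBZ, Or.inl hs₀, Or.inr hyB,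
    IsPreconnected.union b hbS hbB hS hBc⟩

theorem coe_half_eq_coe_neg_half :
    (((1 : ℝ) / 2 : ℝ) : AddCircle (1 : ℝ)) = ((-(1 / 2) : ℝ) : AddCircle (1 : ℝ)) := by
  rw [← sub_eq_zero, ← AddCircle.coe_sub, AddCircle.coe_eq_zero_iff]
  exact ⟨1, by norm_num⟩

/-- Unicoherence: the frontier of a component of the complement of a connected open set is
connected. -/
theorem isPreconnected_frontier_comp [LocallyConnectedSpace P] [PreconnectedSpace P]
    [NormalSpace P] (hP : LiftsCircle P) {S : Set P} (hSo : IsOpen S) (hS : IsPreconnected S)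
    (hSne : S.Nonempty) {z : P} (hz : z ∈ Sᶜ) :
    IsPreconnected (frontier (connectedComponentIn Sᶜ z)) := by
  classical
  set Z := connectedComponentIn Sᶜ z with hZ
  have hZc : IsClosed Z := isClosed_comp_compl hSo z
  have hZcon : IsPreconnected Z := isPreconnected_connectedComponentIn
  have hWcon : IsPreconnected (closure Zᶜ) := (isPreconnected_compl_comp hSo hS hSne hz).closure
  rw [isPreconnected_closed_iff]
  intro t t' ht ht' hsub hne hne'
  by_contra hcon
  rw [not_nonempty_iff_eq_empty] at hcon
  have hFc : IsClosed (frontier Z) := isClosed_frontier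
  have hd : Disjoint (frontier Z ∩ t) (frontier Z ∩ t') := by
    rw [Set.disjoint_iff]
    rintro x ⟨⟨h1, h2⟩, ⟨_, h3⟩⟩
    have : x ∈ frontier Z ∩ (t ∩ t') := ⟨h1, h2, h3⟩
    rw [hcon] at this
    exact this
  obtain ⟨lam, h0, h1, _⟩ := exists_continuous_zero_one_of_isClosed (hFc.inter ht)
    (hFc.inter ht') hd
  have hfr : ∀ x ∈ frontier Z, ((lam x / 2 : ℝ) : AddCircle (1 : ℝ)) =
      ((-(lam x / 2) : ℝ) : AddCircle (1 : ℝ)) := by
    intro x hx
    rcases hsub hx with h | h
    · have : lam x = 0 := h0 ⟨hx, h⟩
      rw [this]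
      norm_num
    · have : lam x = 1 := h1 ⟨hx, h⟩
      rw [this]
      exact coe_half_eq_coe_neg_half
  let φ : P → AddCircle (1 : ℝ) := fun x => if x ∈ Z then ((lam x / 2 : ℝ) : AddCircle (1 : ℝ))
    else ((-(lam x / 2) : ℝ) : AddCircle (1 : ℝ))
  have hmk : Continuous fun x : ℝ => ((x : ℝ) : AddCircle (1 : ℝ)) := AddCircle.continuous_mk' 1
  have hφ : Continuous φ := by
    apply Continuous.if
    · intro a ha
      exact hfr a ha
    · exact hmk.comp (by fun_prop)
    · exact hmk.comp (by fun_prop)
  have hφZ : ∀ x ∈ Z, φ x = ((lam x / 2 : ℝ) : AddCircle (1 : ℝ)) := fun x hx => if_pos hx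
  have hφW : ∀ x ∈ closure Zᶜ, φ x = ((-(lam x / 2) : ℝ) : AddCircle (1 : ℝ)) := by
    intro x hx
    by_cases hxZ : x ∈ Z
    · have : x ∈ frontier Z := by
        rw [frontier_eq_closure_inter_closure]
        exact ⟨subset_closure hxZ, hx⟩
      rw [hφZ x hxZ, hfr x this]
    · exact if_neg hxZ
  obtain ⟨g, hg, hgφ⟩ := hP φ hφ
  obtain ⟨a, ha⟩ := hne
  obtain ⟨b, hb⟩ := hne'
  have hfrZ : ∀ x ∈ frontier Z, x ∈ Z := fun x hx => hZc.frontier_subset hx
  have hfrW : ∀ x ∈ frontier Z, x ∈ closure Zᶜ := by
    intro x hx
    rw [frontier_eq_closure_inter_closure] at hx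
    exact hx.2
  have e1 : g a - lam a / 2 = g b - lam b / 2 := by
    refine eq_of_int_valued hZcon (f := fun x => g x - lam x / 2)
      (fun x _ => by fun_prop) ?_ (hfrZ a ha.1) (hfrZ b hb.1)
    intro x hx
    show ((g x - lam x / 2 : ℝ) : AddCircle (1 : ℝ)) = 0
    rw [AddCircle.coe_sub, hgφ, hφZ x hx, sub_self]
  have e2 : g a + lam a / 2 = g b + lam b / 2 := by
    refine eq_of_int_valued hWcon (f := fun x => g x + lam x / 2)
      (fun x _ => by fun_prop) ?_ (hfrW a ha.1) (hfrW b hb.1)
    intro x hx
    show ((g x + lam x / 2 : ℝ) : AddCircle (1 : ℝ)) = 0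
    rw [AddCircle.coe_add, hgφ, hφW x hx, ← AddCircle.coe_add, neg_add_cancel]
    norm_num
  have ea : lam a = 0 := h0 ha
  have eb : lam b = 1 := h1 hb
  rw [ea, eb] at e1 e2
  linarith

/-- The frontier of a component of the complement of a component of a slab lies in the walls. -/
theorem frontier_comp_walls [LocallyConnectedSpace P] {v : P → ℝ} (hv : Continuous v) {α β : ℝ}
    {s₀ z : P} (hz : z ∈ (connectedComponentIn {x | α < v x ∧ v x < β} s₀)ᶜ) :
    ∀ x ∈ frontier (connectedComponentIn (connectedComponentIn {x | α < v x ∧ v x < β} s₀)ᶜ z),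
      v x = α ∨ v x = β := by
  set O : Set P := {x | α < v x ∧ v x < β} with hO
  have hOo : IsOpen O := (isOpen_lt continuous_const hv).inter (isOpen_lt hv continuous_const)
  set S := connectedComponentIn O s₀ with hS
  have hSo : IsOpen S := hOo.connectedComponentIn
  have hSO : S ⊆ O := connectedComponentIn_subset _ _
  set Z := connectedComponentIn Sᶜ z with hZ
  have hZc : IsClosed Z := isClosed_comp_compl hSo z
  have hZS : Z ⊆ Sᶜ := connectedComponentIn_subset _ _
  have hzZ : z ∈ Z := mem_connectedComponentIn hz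
  intro x hx
  have hxZ : x ∈ Z := hZc.frontier_subset hx
  have hxS : x ∉ S := hZS hxZ
  have hcl : x ∈ closure S := by
    by_contra hcon
    have hN : IsOpen (connectedComponentIn (closure S)ᶜ x) :=
      isClosed_closure.isOpen_compl.connectedComponentIn
    have h1 : connectedComponentIn (closure S)ᶜ x ∪ Z ⊆ Sᶜ := by
      apply union_subset _ hZS
      exact (connectedComponentIn_subset _ _).trans (compl_subset_compl.2 subset_closure)
    have h2 : IsPreconnected (connectedComponentIn (closure S)ᶜ x ∪ Z) :=
      IsPreconnected.union x (mem_connectedComponentIn hcon) hxZ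
        isPreconnected_connectedComponentIn isPreconnected_connectedComponentIn
    have h3 : connectedComponentIn (closure S)ᶜ x ∪ Z ⊆ Z :=
      h2.subset_connectedComponentIn (Or.inr hzZ) h1
    have h4 : x ∈ interior Z := by
      rw [mem_interior]
      exact ⟨_, subset_union_left.trans h3, hN, mem_connectedComponentIn hcon⟩
    exact hx.2 h4
  have hge : α ≤ v x := by
    have : closure S ⊆ {x | α ≤ v x} :=
      closure_minimal (fun y hy => (hSO hy).1.le) (isClosed_le continuous_const hv)
    exact this hcl
  have hle : v x ≤ β := by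
    have : closure S ⊆ {x | v x ≤ β} :=
      closure_minimal (fun y hy => (hSO hy).2.le) (isClosed_le hv continuous_const)
    exact this hcl
  by_contra hcon
  push Not at hcon
  have hxO : x ∈ O := ⟨lt_of_le_of_ne hge (Ne.symm hcon.1), lt_of_le_of_ne hle hcon.2⟩
  -- `x` is in the closure of the component, hence in the component
  have hSne : S.Nonempty := by
    by_contra h
    rw [not_nonempty_iff_eq_empty] at h
    rw [h, closure_empty] at hcl
    exact hcl
  obtain ⟨s, hs⟩ := hSne
  have h1 : IsPreconnected (insert x S) := by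
    apply IsPreconnected.subset_closure (isPreconnected_connectedComponentIn (F := O) (x := s₀))
      (subset_insert _ _)
    exact insert_subset hcl subset_closure
  have h2 : insert x S ⊆ O := insert_subset hxO hSO
  have h3 : insert x S ⊆ connectedComponentIn O s :=
    h1.subset_connectedComponentIn (mem_insert_of_mem _ hs) h2
  have h4 : connectedComponentIn O s = S := (connectedComponentIn_eq hs).symm
  rw [h4] at h3
  exact hxS (h3 (mem_insert _ _))

end

end Pool.Agent.Work.MP_71c2fc_gt
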