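import Pool.Agent.Work.MP_71c2fc_gt.Slice.Main

set_option autoImplicit false

open Set Filter Topology
open scoped unitInterval

namespace Pool.Agent.Work.MP_71c2fc_gt

/-- A level is good if every continuum in it lies in a subset near it to which the Tietze
extension theorem applies. -/
theorem goodLevel_of_walls {T : Type} [TopologicalSpace T] {h : ℕ → T → ℝ} {i : ℕ} {t : ℝ}
    (hw : ∀ C : Set T, IsCompact C → IsConnected C → (∀ a ∈ C, h i a = t) →
      ∀ (m : ℕ) (η : ℝ), 0 < η → ∃ E : Set T, C ⊆ E ∧ TietzeExtension.{0, 0} E ∧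
        ∀ x ∈ E, |h i x - t| ≤ η ∧ ∀ j ≤ m, ∃ a ∈ C, ∃ b ∈ C, h j a - η ≤ h j x ∧
          h j x ≤ h j b + η) : GoodLevel h i t := by
  intro Z _ _ _ _ F f hF hFc hFt m η hη
  let _ := TopologicalSpace.metrizableSpaceMetric Z
  have hFcomp : IsCompact F := hF.isCompact
  obtain ⟨E, hCE, hTE, hE⟩ := hw (f '' F) (hFcomp.image f.continuous)
    (hFc.image f f.continuous.continuousOn) (by rintro _ ⟨z, hz, rfl⟩; exact hFt z hz) m η hη
  have hmem : ∀ z ∈ F, f z ∈ E := fun z hz => hCE ⟨z, hz, rfl⟩
  let fF : C(F, E) := ⟨fun z => ⟨f z, hmem z z.2⟩, by fun_prop⟩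
  obtain ⟨g, hg⟩ := ContinuousMap.exists_restrict_eq hF fF
  refine ⟨⟨fun z => (g z : T), by fun_prop⟩, ?_, ?_⟩
  · intro z hz
    have := congrArg (fun k : C(F, E) => ((k ⟨z, hz⟩ : E) : T)) hg
    exact this
  · intro z
    obtain ⟨h1, h2⟩ := hE _ (g z).2
    refine ⟨h1, fun j hj => ?_⟩
    obtain ⟨_, ⟨a, _, rfl⟩, _, ⟨b, _, rfl⟩, h3, h4⟩ := h2 j hj
    exact ⟨a, b, h3, h4⟩

/-- The space is sliceable if it is a closed subset of 3-space and its sections by a dense set of
planes in each coordinate direction have the wall property. -/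
theorem sliceable_of_walls {X : Set (EuclideanSpace ℝ (Fin 3))} (hX : IsClosed X)
    (hw : ∀ i : Fin 3, Dense {t : ℝ | ∀ C ⊆ X, IsCompact C → IsConnected C →
      (∀ a ∈ C, a i = t) → ∀ η : ℝ, 0 < η → ∃ E ⊆ X, C ⊆ E ∧ TietzeExtension.{0, 0} E ∧
        ∀ x ∈ E, ∀ j, ∃ a ∈ C, ∃ b ∈ C, a j - η ≤ x j ∧ x j ≤ b j + η}) :
    Sliceable X := by
  classical
  let h : ℕ → X → ℝ := fun j x => if hj : j < 3 then (x : EuclideanSpace ℝ (Fin 3)) ⟨j, hj⟩ else 0
  have hh : ∀ (j : ℕ) (hj : j < 3) (x : X), h j x = (x : EuclideanSpace ℝ (Fin 3)) ⟨j, hj⟩ := by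
    intro j hj x
    simp only [h, dif_pos hj]
  have hh' : ∀ (j : ℕ), ¬ j < 3 → ∀ x : X, h j x = 0 := by
    intro j hj x
    simp only [h, dif_neg hj]
  refine ⟨h, ?_, ?_, ?_, ?_⟩
  · intro j
    by_cases hj : j < 3
    · have e : h j = fun x : X => (x : EuclideanSpace ℝ (Fin 3)) ⟨j, hj⟩ := funext (hh j hj)
      rw [e]
      fun_prop
    · have e : h j = fun _ => 0 := funext (hh' j hj)
      rw [e]
      exact continuous_const
  · intro M
    have hcl : IsClosed {x : X | ∀ j, |h j x| ≤ M j} := by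
      have e : {x : X | ∀ j, |h j x| ≤ M j} = ⋂ j, {x : X | |h j x| ≤ M j} := by
        ext x; simp
      rw [e]
      refine isClosed_iInter fun j => isClosed_le ?_ continuous_const
      by_cases hj : j < 3
      · have e : h j = fun x : X => (x : EuclideanSpace ℝ (Fin 3)) ⟨j, hj⟩ := funext (hh j hj)
        rw [e]
        fun_prop
      · have e : h j = fun _ => 0 := funext (hh' j hj)
        rw [e]
        fun_prop
    have hemb : IsClosedEmbedding (Subtype.val : X → EuclideanSpace ℝ (Fin 3)) :=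
      hX.isClosedEmbedding_subtypeVal
    have hball : IsCompact (Subtype.val ⁻¹' Metric.closedBall (0 : EuclideanSpace ℝ (Fin 3))
        (|M 0| + |M 1| + |M 2|) : Set X) :=
      hemb.isCompact_preimage (isCompact_closedBall _ _)
    refine hball.of_isClosed_subset hcl ?_
    intro x hx
    show (x : EuclideanSpace ℝ (Fin 3)) ∈ Metric.closedBall 0 _
    rw [mem_closedBall_zero_iff, EuclideanSpace.norm_eq]
    have h0 : |(x : EuclideanSpace ℝ (Fin 3)) 0| ≤ |M 0| := by
      have := hx 0
      rw [hh 0 (by norm_num)] at this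
      exact this.trans (le_abs_self _)
    have h1 : |(x : EuclideanSpace ℝ (Fin 3)) 1| ≤ |M 1| := by
      have := hx 1
      rw [hh 1 (by norm_num)] at this
      exact this.trans (le_abs_self _)
    have h2 : |(x : EuclideanSpace ℝ (Fin 3)) 2| ≤ |M 2| := by
      have := hx 2
      rw [hh 2 (by norm_num)] at this
      exact this.trans (le_abs_self _)
    rw [Real.sqrt_le_iff, Fin.sum_univ_three]
    refine ⟨by positivity, ?_⟩
    simp only [Real.norm_eq_abs]
    have p0 := abs_nonneg ((x : EuclideanSpace ℝ (Fin 3)) 0)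
    have p1 := abs_nonneg ((x : EuclideanSpace ℝ (Fin 3)) 1)
    have p2 := abs_nonneg ((x : EuclideanSpace ℝ (Fin 3)) 2)
    have q0 := abs_nonneg (M 0)
    have q1 := abs_nonneg (M 1)
    have q2 := abs_nonneg (M 2)
    nlinarith [mul_nonneg q0 q1, mul_nonneg q0 q2, mul_nonneg q1 q2]
  · intro i
    by_cases hi : i < 3
    · refine (hw ⟨i, hi⟩).mono ?_
      intro t ht
      apply goodLevel_of_walls
      intro C hC hCc hCt m η hη
      have hC' : IsCompact (Subtype.val '' C) := hC.image continuous_subtype_val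
      obtain ⟨E, hEX, hCE, hTE, hE⟩ := ht (Subtype.val '' C)
        (by rintro _ ⟨c, _, rfl⟩; exact c.2) hC'
        (hCc.image _ continuous_subtype_val.continuousOn)
        (by rintro _ ⟨c, hc, rfl⟩; rw [← hh i hi]; exact hCt c hc) η hη
      refine ⟨Subtype.val ⁻¹' E, fun c hc => hCE ⟨c, hc, rfl⟩, ?_, ?_⟩
      · have e : (Subtype.val ⁻¹' E : Set X) ≃ₜ E :=
          { toFun := fun x => ⟨x.1.1, x.2⟩
            invFun := fun x => ⟨⟨x.1, hEX x.2⟩, x.2⟩
            left_inv := fun x => rfl
            right_inv := fun x => rfl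
            continuous_toFun := by fun_prop
            continuous_invFun := by fun_prop }
        exact TietzeExtension.of_homeo.{0, 0, 0} e
      · intro x hx
        constructor
        · obtain ⟨_, ⟨a, ha, rfl⟩, _, ⟨b, hb, rfl⟩, h3, h4⟩ := hE x.1 hx ⟨i, hi⟩
          rw [hh i hi]
          have ha' := hCt a ha
          have hb' := hCt b hb
          rw [hh i hi] at ha' hb'
          rw [abs_le]
          constructor <;> linarith
        · intro j _
          by_cases hj : j < 3
          · obtain ⟨_, ⟨a, ha, rfl⟩, _, ⟨b, hb, rfl⟩, h3, h4⟩ := hE x.1 hx ⟨j, hj⟩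
            exact ⟨a, ha, b, hb, by rw [hh j hj, hh j hj]; exact h3,
              by rw [hh j hj, hh j hj]; exact h4⟩
          · obtain ⟨c, hc⟩ := hCc.nonempty
            refine ⟨c, hc, c, hc, ?_, ?_⟩
            · rw [hh' j hj, hh' j hj]; linarith
            · rw [hh' j hj, hh' j hj]; linarith
    · -- the function is zero: every level is good
      have hall : ∀ t, GoodLevel h i t := by
        intro t Z _ _ _ _ F f hF hFc hFt m η hη
        obtain ⟨z₀, hz₀⟩ := hFc.nonempty
        have h0 : t = 0 := by rw [← hFt z₀ hz₀, hh' i hi]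
        refine ⟨f, fun z _ => rfl, fun z => ⟨?_, fun j _ => ⟨z, z, by linarith, by linarith⟩⟩⟩
        rw [hh' i hi, h0]
        simpa using hη.le
      have e : {t | GoodLevel h i t} = univ := by ext t; simp [hall t]
      rw [e]
      exact dense_univ
  · intro C hC hCc hconst
    left
    intro a ha b hb
    apply Subtype.ext
    ext k
    have := hconst k.val a ha b hb
    rw [hh k.val k.isLt, hh k.val k.isLt] at this
    exact this

end Pool.Agent.Work.MP_71c2fc_gt
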